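import Pool.Agent.Work.MP_8a95ee_gt.CP.Chain

/-!
# The fundamental cycle is a cycle
-/

set_option autoImplicit false

namespace MP8a95ee.CP

open Matrix

variable {V G : Type} [Group G] [MulAction G V]

open Classical in
/-- the set of the entries of a tuple -/
noncomputable def im {k : ℕ} (t : Fin k → V) : Finset V := Finset.univ.image t

theorem mem_im {k : ℕ} {t : Fin k → V} {v : V} : v ∈ im t ↔ ∃ i, t i = v := by
  classical
  unfold im
  simp

theorem tr_im {k : ℕ} (g : G) (t : Fin k → V) : tr g (im t) = im fun i => g • t i := by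
  ext v
  rw [mem_tr, mem_im, mem_im]
  constructor
  · rintro ⟨i, hi⟩
    exact ⟨i, by rw [hi, smul_inv_smul]⟩
  · rintro ⟨i, rfl⟩
    exact ⟨i, by rw [inv_smul_smul]⟩

open Classical in
/-- the set of the entries of a tuple, except one -/
noncomputable def imE {k : ℕ} (t : Fin k → V) (j : Fin k) : Finset V :=
  (Finset.univ.erase j).image t

theorem mem_imE {k : ℕ} {t : Fin k → V} {j : Fin k} {v : V} :
    v ∈ imE t j ↔ ∃ i, i ≠ j ∧ t i = v := by
  classical
  unfold imE
  simp

theorem imE_subset {k : ℕ} (t : Fin k → V) (j : Fin k) : imE t j ⊆ im t := by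
  intro v hv
  obtain ⟨i, -, h⟩ := mem_imE.1 hv
  exact mem_im.2 ⟨i, h⟩

theorem card_imE {k : ℕ} {t : Fin (k + 1) → V} (ht : Function.Injective t) (j : Fin (k + 1)) :
    (imE t j).card = k := by
  classical
  unfold imE
  rw [Finset.card_image_of_injective _ ht, Finset.card_erase_of_mem (Finset.mem_univ j)]
  simp

theorem update_smul {k : ℕ} (g : G) (t : Fin k → V) (j : Fin k) (u : V) :
    (fun i => g • Function.update t j u i) = Function.update (fun i => g • t i) j (g • u) := by
  funext i
  by_cases h : i = j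
  · subst h
    rw [Function.update_self, Function.update_self]
  · rw [Function.update_of_ne h, Function.update_of_ne h]

/-- `u` is the vertex opposite to `t j` -/
def Opp {n : ℕ} (K : Set (Finset V)) (p : V → Fin (n + 1) → ℝ) {k : ℕ} (t : Fin k → V)
    (j : Fin k) (u : V) : Prop :=
  im (Function.update t j u) ∈ K ∧ u ∉ imE t j ∧
    ∃ a : ℝ, 0 < a ∧ ∃ b : Fin k → ℝ, p (t j) + a • p u = ∑ i ∈ Finset.univ.erase j, b i • p (t i)

namespace IsProjTri

variable {m : ℕ} {K : Set (Finset V)} {R : Finset (Finset V)}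
  {ρ : G →* Matrix (Fin (m + 1 + 1)) (Fin (m + 1 + 1)) ℝ} {p : V → Fin (m + 1 + 1) → ℝ}

open Classical in
theorem im_update {k : ℕ} (t : Fin k → V) (j : Fin k) (u : V) :
    im (Function.update t j u) = insert u (imE t j) := by
  ext v
  rw [mem_im, Finset.mem_insert, mem_imE]
  constructor
  · rintro ⟨i, hi⟩
    by_cases h : i = j
    · subst h
      rw [Function.update_self] at hi
      exact Or.inl hi.symm
    · rw [Function.update_of_ne h] at hi
      exact Or.inr ⟨i, h, hi⟩
  · rintro (rfl | ⟨i, h, hi⟩)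
    · exact ⟨j, Function.update_self _ _ _⟩
    · exact ⟨i, by rw [Function.update_of_ne h, hi]⟩

theorem exists_opp (H : IsProjTri (m + 1) K R ρ p) {t : Fin (m + 1 + 1) → V}
    (ht : Function.Injective t) (hK : im t ∈ K) (j : Fin (m + 1 + 1)) : ∃ u, Opp K p t j u := by
  classical
  have hc := card_imE ht j
  have hne : (imE t j).Nonempty := by
    rw [← Finset.card_pos, hc]; omega
  have hU : imE t j ∈ K := H.down _ hK _ (imE_subset t j) hne
  obtain ⟨T, ⟨hTK, hUT, a, ha, hsum⟩, -⟩ := H.fan _ hU (-p (t j))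
  have hUim : insert (t j) (imE t j) = im t := by
    rw [← im_update, Function.update_eq_self]
  have htj : t j ∉ imE t j := by
    rw [mem_imE]
    rintro ⟨i, hi, h⟩
    exact hi (ht h)
  have hTne : imE t j ≠ T := by
    intro h
    rw [← h] at hsum
    have h1 := H.indep hK (b := fun v => if v = t j then 1 else a v) (by
      rw [← hUim, Finset.sum_insert htj, if_pos rfl, one_smul]
      have : ∑ v ∈ imE t j, (if v = t j then (1 : ℝ) else a v) • p v =
          ∑ v ∈ imE t j, a v • p v := by
        refine Finset.sum_congr rfl fun v hv => ?_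
        rw [if_neg]
        rintro rfl
        exact htj hv
      rw [this, hsum, add_neg_cancel]) (t j) (mem_im.2 ⟨j, rfl⟩)
    rw [if_pos rfl] at h1
    exact one_ne_zero h1
  have hlt : (imE t j).card < T.card :=
    Finset.card_lt_card (lt_of_le_of_ne hUT hTne)
  have hTc := H.card_le hTK
  obtain ⟨u, huU, huT⟩ := Finset.exists_eq_insert_iff.2 ⟨hUT, (by omega : (imE t j).card + 1 = T.card)⟩
  refine ⟨u, ?_, huU, a u, ha u ?_ huU, fun i => - a (t i), ?_⟩
  · rw [im_update, huT]; exact hTK
  · rw [← huT]; exact Finset.mem_insert_self _ _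
  · rw [← huT, Finset.sum_insert huU] at hsum
    have h2 : ∑ v ∈ imE t j, a v • p v = ∑ i ∈ Finset.univ.erase j, a (t i) • p (t i) := by
      unfold imE
      rw [Finset.sum_image fun x _ y _ h => ht h]
    rw [h2] at hsum
    have h3 : ∑ i ∈ Finset.univ.erase j, (- a (t i)) • p (t i) =
        - ∑ i ∈ Finset.univ.erase j, a (t i) • p (t i) := by
      rw [← Finset.sum_neg_distrib]
      exact Finset.sum_congr rfl fun i _ => neg_smul _ _
    rw [h3]
    have h4 : a u • p u = - p (t j) - ∑ i ∈ Finset.univ.erase j, a (t i) • p (t i) := by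
      rw [← hsum]; abel
    rw [h4]; abel

theorem opp_unique (H : IsProjTri (m + 1) K R ρ p) {t : Fin (m + 1 + 1) → V}
    (ht : Function.Injective t) (hK : im t ∈ K) {j : Fin (m + 1 + 1)} {u u' : V}
    (hu : Opp K p t j u) (hu' : Opp K p t j u') : u = u' := by
  classical
  have hc := card_imE ht j
  have hne : (imE t j).Nonempty := by
    rw [← Finset.card_pos, hc]; omega
  have hU : imE t j ∈ K := H.down _ hK _ (imE_subset t j) hne
  have key : ∀ x, Opp K p t j x → insert x (imE t j) ∈ K ∧ imE t j ⊆ insert x (imE t j) ∧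
      ∃ a : V → ℝ, (∀ v ∈ insert x (imE t j), v ∉ imE t j → 0 < a v) ∧
        ∑ v ∈ insert x (imE t j), a v • p v = -p (t j) := by
    rintro x ⟨h1, h2, a, ha, b, hb⟩
    rw [im_update] at h1
    refine ⟨h1, Finset.subset_insert _ _,
      fun v => if v = x then a else - b (Function.invFun t v), ?_, ?_⟩
    · intro v hv hvU
      have : v = x := by
        rcases Finset.mem_insert.1 hv with h | h
        · exact h
        · exact absurd h hvU
      show 0 < if v = x then a else - b (Function.invFun t v)
      rw [if_pos this]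
      exact ha
    · rw [Finset.sum_insert h2]
      show (if x = x then a else - b (Function.invFun t x)) • p x +
        ∑ v ∈ imE t j, (if v = x then a else - b (Function.invFun t v)) • p v = -p (t j)
      rw [if_pos rfl]
      have h3 : ∑ v ∈ imE t j, (if v = x then a else - b (Function.invFun t v)) • p v =
          - ∑ i ∈ Finset.univ.erase j, b i • p (t i) := by
        have h4 : ∀ v ∈ imE t j, (if v = x then a else - b (Function.invFun t v)) • p v =
            - (b (Function.invFun t v) • p v) := by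
          intro v hv
          rw [if_neg, neg_smul]
          rintro rfl
          exact h2 hv
        rw [Finset.sum_congr rfl h4, Finset.sum_neg_distrib]
        congr 1
        unfold imE
        rw [Finset.sum_image fun x _ y _ h => ht h]
        refine Finset.sum_congr rfl fun i _ => ?_
        rw [Function.leftInverse_invFun ht i]
      rw [h3, ← hb]
      abel
  have h := (H.fan _ hU (-p (t j))).unique (key u hu) (key u' hu')
  have h1 : u ∈ insert u' (imE t j) := by
    rw [← h]; exact Finset.mem_insert_self _ _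
  rcases Finset.mem_insert.1 h1 with h2 | h2
  · exact h2
  · exact absurd h2 hu.2.1

theorem inj_update {k : ℕ} {t : Fin k → V} (ht : Function.Injective t) {j : Fin k} {u : V}
    (hu : u ∉ imE t j) : Function.Injective (Function.update t j u) := by
  intro a b h
  by_cases ha : a = j
  · by_cases hb : b = j
    · rw [ha, hb]
    · rw [ha, Function.update_self, Function.update_of_ne hb] at h
      exact absurd (mem_imE.2 ⟨b, hb, h.symm⟩) hu
  · by_cases hb : b = j
    · rw [hb, Function.update_self, Function.update_of_ne ha] at h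
      exact absurd (mem_imE.2 ⟨a, ha, h⟩) hu
    · rw [Function.update_of_ne ha, Function.update_of_ne hb] at h
      exact ht h

theorem opp_symm {t : Fin (m + 1 + 1) → V} (ht : Function.Injective t) (hK : im t ∈ K)
    {j : Fin (m + 1 + 1)} {u : V} (hu : Opp K p t j u) :
    Opp K p (Function.update t j u) j (t j) := by
  obtain ⟨h1, h2, a, ha, b, hb⟩ := hu
  refine ⟨?_, ?_, a⁻¹, inv_pos.2 ha, fun i => a⁻¹ * b i, ?_⟩
  · rw [Function.update_idem, Function.update_eq_self]
    exact hK
  · rw [mem_imE]
    rintro ⟨i, hi, h⟩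
    rw [Function.update_of_ne hi] at h
    exact hi (ht h)
  · rw [Function.update_self]
    have h3 : ∑ i ∈ Finset.univ.erase j, (a⁻¹ * b i) • p (Function.update t j u i) =
        a⁻¹ • ∑ i ∈ Finset.univ.erase j, b i • p (t i) := by
      rw [Finset.smul_sum]
      refine Finset.sum_congr rfl fun i hi => ?_
      rw [Function.update_of_ne (Finset.ne_of_mem_erase hi), mul_smul]
    rw [h3, ← hb, smul_add, smul_smul, inv_mul_cancel₀ ha.ne', one_smul]
    exact add_comm (p u) _

theorem opp_smul (H : IsProjTri (m + 1) K R ρ p) (g : G) {t : Fin (m + 1 + 1) → V}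
    {j : Fin (m + 1 + 1)} {u : V} (hu : Opp K p t j u) :
    Opp K p (fun i => g • t i) j (g • u) := by
  obtain ⟨h1, h2, a, ha, b, hb⟩ := hu
  refine ⟨?_, ?_, a, ha, b, ?_⟩
  · rw [← update_smul, ← tr_im]
    exact H.inv g _ h1
  · intro h
    apply h2
    rw [mem_imE] at h ⊢
    obtain ⟨i, hi, h⟩ := h
    exact ⟨i, hi, MulAction.injective g h⟩
  · simp only [H.equiv]
    have h3 := congrArg (fun x => (ρ g) *ᵥ x) hb
    simp only [Matrix.mulVec_add, Matrix.mulVec_smul, Matrix.mulVec_sum] at h3
    exact h3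

/-- exchanging a vertex for the opposite one changes the sign of the determinant -/
theorem sgn_opp {t : Fin (m + 1 + 1) → V} {j : Fin (m + 1 + 1)} {u : V} (hu : Opp K p t j u) :
    sgn (Matrix.of fun i => p (Function.update t j u i)).det =
      - sgn (Matrix.of fun i => p (t i)).det := by
  obtain ⟨-, -, a, ha, b, hb⟩ := hu
  set M : Matrix (Fin (m + 1 + 1)) (Fin (m + 1 + 1)) ℝ := Matrix.of fun i => p (t i) with hM
  have h1 : (Matrix.of fun i => p (Function.update t j u i)) =
      M.updateRow j (∑ i, (if i = j then - a⁻¹ else a⁻¹ * b i) • M i) := by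
    have hpu : p u = ∑ i, (if i = j then - a⁻¹ else a⁻¹ * b i) • M i := by
      rw [← Finset.add_sum_erase Finset.univ _ (Finset.mem_univ j), if_pos rfl]
      have h2 : ∑ i ∈ Finset.univ.erase j, (if i = j then - a⁻¹ else a⁻¹ * b i) • M i =
          a⁻¹ • ∑ i ∈ Finset.univ.erase j, b i • p (t i) := by
        rw [Finset.smul_sum]
        refine Finset.sum_congr rfl fun i hi => ?_
        rw [if_neg (Finset.ne_of_mem_erase hi), mul_smul]
        rfl
      rw [h2, ← hb, smul_add, smul_smul, inv_mul_cancel₀ ha.ne', one_smul]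
      have h3 : M j = p (t j) := rfl
      rw [h3, neg_smul, neg_add_cancel_left]
    rw [← hpu]
    ext i k
    by_cases hij : i = j
    · subst hij
      rw [Matrix.updateRow_self]
      show p (Function.update t i u i) k = p u k
      rw [Function.update_self]
    · rw [Matrix.updateRow_ne hij]
      show p (Function.update t j u i) k = p (t i) k
      rw [Function.update_of_ne hij]
  rw [h1, Matrix.det_updateRow_sum, if_pos rfl, smul_eq_mul, sgn_mul,
    sgn_neg (by rw [neg_lt_zero]; exact inv_pos.2 ha)]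
  ring

theorem sgn_smul (H : IsProjTri (m + 1) K R ρ p) (g : G) (t : Fin (m + 1 + 1) → V) :
    sgn (Matrix.of fun i => p (g • t i)).det = sgn (Matrix.of fun i => p (t i)).det := by
  have h1 : (Matrix.of fun i => p (g • t i)) = (Matrix.of fun i => p (t i)) * (ρ g)ᵀ := by
    ext i k
    rw [Matrix.mul_apply]
    show p (g • t i) k = _
    rw [H.equiv, Matrix.mulVec, dotProduct]
    refine Finset.sum_congr rfl fun l _ => ?_
    rw [Matrix.transpose_apply, mul_comm]
    rfl
  rw [h1, Matrix.det_mul, Matrix.det_transpose, sgn_mul, sgn_pos (H.orient g), mul_one]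

open Classical in
/-- the opposite vertex -/
noncomputable def op (_ : IsProjTri (m + 1) K R ρ p) (t : Fin (m + 1 + 1) → V)
    (j : Fin (m + 1 + 1)) : V :=
  if h : ∃ u, Opp K p t j u then h.choose else t j

theorem op_spec (H : IsProjTri (m + 1) K R ρ p) {t : Fin (m + 1 + 1) → V}
    (ht : Function.Injective t) (hK : im t ∈ K) (j : Fin (m + 1 + 1)) :
    Opp K p t j (H.op t j) := by
  have h := H.exists_opp ht hK j
  unfold op
  rw [dif_pos h]
  exact h.choose_spec

/-- the involution -/
noncomputable def phi2 (H : IsProjTri (m + 1) K R ρ p) (j : Fin (m + 1 + 1))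
    (t : Fin (m + 1 + 1) → V) : Fin (m + 1 + 1) → V :=
  fun i => (H.gt (im (Function.update t j (H.op t j))))⁻¹ • Function.update t j (H.op t j) i

theorem inj_smul {k : ℕ} (g : G) {t : Fin k → V} (ht : Function.Injective t) :
    Function.Injective fun i => g • t i := fun _ _ h => ht (MulAction.injective g h)

theorem phi2_mem (H : IsProjTri (m + 1) K R ρ p) {t : Fin (m + 1 + 1) → V}
    (ht : Function.Injective t) (hK : im t ∈ K) (j : Fin (m + 1 + 1)) :
    Function.Injective (H.phi2 j t) ∧ im (H.phi2 j t) ∈ R := by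
  obtain ⟨h1, h2, -⟩ := H.op_spec ht hK j
  refine ⟨inj_smul _ (inj_update ht h2), ?_⟩
  have h3 : im (H.phi2 j t) = H.rt (im (Function.update t j (H.op t j))) := by
    rw [H.rt_eq h1, tr_im]
    rfl
  rw [h3]
  exact H.rt_mem h1

theorem phi2_phi2 (H : IsProjTri (m + 1) K R ρ p) {t : Fin (m + 1 + 1) → V}
    (ht : Function.Injective t) (hR : im t ∈ R) (j : Fin (m + 1 + 1)) :
    H.phi2 j (H.phi2 j t) = t := by
  have hK := H.sub _ hR
  have ho := H.op_spec ht hK j
  obtain ⟨h1, h2⟩ := H.phi2_mem ht hK j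
  have h2K := H.sub _ h2
  have ho2 := H.op_spec h1 h2K j
  set g := H.gt (im (Function.update t j (H.op t j))) with hg
  have ho3 : Opp K p (H.phi2 j t) j (g⁻¹ • t j) := H.opp_smul g⁻¹ (opp_symm ht hK ho)
  have h3 : H.op (H.phi2 j t) j = g⁻¹ • t j := H.opp_unique h1 h2K ho2 ho3
  have h4 : Function.update (H.phi2 j t) j (H.op (H.phi2 j t) j) = fun i => g⁻¹ • t i := by
    rw [h3]
    show Function.update (fun i => g⁻¹ • Function.update t j (H.op t j) i) j (g⁻¹ • t j) = _
    rw [← update_smul, Function.update_idem, Function.update_eq_self]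
  have h5 : H.gt (im (Function.update (H.phi2 j t) j (H.op (H.phi2 j t) j))) = g⁻¹ := by
    rw [h4, ← tr_im, (H.gt_tr hK g⁻¹).1, (H.gt_of_mem hR).1, mul_one]
  show (fun i => (H.gt (im (Function.update (H.phi2 j t) j (H.op (H.phi2 j t) j))))⁻¹ •
    Function.update (H.phi2 j t) j (H.op (H.phi2 j t) j) i) = t
  rw [h5, h4]
  funext i
  rw [inv_inv, smul_inv_smul]

theorem sgn_phi2 (H : IsProjTri (m + 1) K R ρ p) {t : Fin (m + 1 + 1) → V}
    (ht : Function.Injective t) (hK : im t ∈ K) (j : Fin (m + 1 + 1)) :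
    sgn (Matrix.of fun i => p (H.phi2 j t i)).det = - sgn (Matrix.of fun i => p (t i)).det := by
  unfold phi2
  rw [H.sgn_smul, sgn_opp (H.op_spec ht hK j)]

/-- the chain of an ordered simplex of the quotient -/
noncomputable def qc (_ : IsProjTri (m + 1) K R ρ p) {k : ℕ} (t : Fin (k + 1) → V) :
    SChain (Mfd G K) k := push (proj G K) (simCh K t)

theorem qc_smul (H : IsProjTri (m + 1) K R ρ p) {k : ℕ} (t : Fin (k + 1) → V) {s : Finset V}
    (hs : s ∈ K) (ht : ∀ i, t i ∈ s) (g : G) : H.qc (fun i => g • t i) = H.qc t := by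
  have h1 := simPt_mem hs t ht
  have h2 := simPt_mem (H.inv g s hs) (fun i => g • t i) fun i => smul_mem_tr.2 (ht i)
  unfold qc
  rw [simCh_eq _ h1, simCh_eq _ h2, push_single, push_single,
    proj_sim t (fun i => g • t i) g (fun _ => rfl) h1 h2]

theorem bd_qc (H : IsProjTri (m + 1) K R ρ p) {k : ℕ} (t : Fin (k + 2) → V) {s : Finset V}
    (hs : s ∈ K) (ht : ∀ i, t i ∈ s) : bd (H.qc t) =
      ∑ i : Fin (k + 2), ((-1 : ℝ) ^ (i : ℕ)) • H.qc (fun j => t (i.succAbove j)) := by
  have h1 := simPt_mem hs t ht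
  unfold qc
  rw [simCh_eq _ h1, push_single, bd_singleL]
  refine Finset.sum_congr rfl fun i _ => ?_
  have h2 := simPt_mem hs (fun j => t (i.succAbove j)) fun j => ht _
  rw [simCh_eq _ h2, push_single]
  congr 2
  show (proj G K).comp (face (sim t h1) i) = _
  rw [face_sim t h1 i h2]

theorem sum_face (H : IsProjTri (m + 1) K R ρ p) (j : Fin (m + 1 + 1)) :
    ∑ s ∈ R, ∑ t ∈ orderings (m + 1) s, sgn (Matrix.of fun i => p (t i)).det •
      H.qc (fun i => t (j.succAbove i)) = 0 := by
  classical
  have him : ∀ s ∈ R, ∀ t ∈ orderings (m + 1) s, im t = s := by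
    intro s hs t ht
    exact image_ordering (H.card_le (H.sub s hs)) ht
  rw [← Finset.sum_biUnion]
  · have hmem : ∀ t, t ∈ R.biUnion (orderings (m + 1)) ↔ Function.Injective t ∧ im t ∈ R := by
      intro t
      rw [Finset.mem_biUnion]
      constructor
      · rintro ⟨s, hs, ht⟩
        refine ⟨(mem_orderings.1 ht).2, ?_⟩
        rw [him s hs t ht]
        exact hs
      · rintro ⟨h1, h2⟩
        exact ⟨im t, h2, mem_orderings.2 ⟨fun i => mem_im.2 ⟨i, rfl⟩, h1⟩⟩
    refine Finset.sum_involution (fun t _ => H.phi2 j t) ?_ ?_ ?_ ?_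
    · intro t ht
      obtain ⟨h1, h2⟩ := (hmem t).1 ht
      have hK := H.sub _ h2
      have hf : H.qc (fun i => H.phi2 j t (j.succAbove i)) = H.qc (fun i => t (j.succAbove i)) := by
        have h3 : (fun i => H.phi2 j t (j.succAbove i)) = fun i =>
            (H.gt (im (Function.update t j (H.op t j))))⁻¹ • t (j.succAbove i) := by
          funext i
          unfold phi2
          rw [Function.update_of_ne (Fin.succAbove_ne j i)]
        rw [h3]
        exact H.qc_smul _ hK (fun i => mem_im.2 ⟨_, rfl⟩) _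
      show sgn (Matrix.of fun i => p (t i)).det • H.qc (fun i => t (j.succAbove i)) +
        sgn (Matrix.of fun i => p (H.phi2 j t i)).det •
          H.qc (fun i => H.phi2 j t (j.succAbove i)) = 0
      rw [hf, H.sgn_phi2 h1 hK j, neg_smul, add_neg_cancel]
    · intro t ht _ heq
      obtain ⟨h1, h2⟩ := (hmem t).1 ht
      have hK := H.sub _ h2
      have h3 := H.sgn_phi2 h1 hK j
      rw [heq] at h3
      have h4 := sgn_mul_self (H.det_ne h1 hK fun i => mem_im.2 ⟨i, rfl⟩)
      have h5 : sgn (Matrix.of fun i => p (t i)).det = 0 := by linarith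
      rw [h5, mul_zero] at h4
      exact zero_ne_one h4
    · intro t ht
      obtain ⟨h1, h2⟩ := (hmem t).1 ht
      exact (hmem _).2 (H.phi2_mem h1 (H.sub _ h2) j)
    · intro t ht
      obtain ⟨h1, h2⟩ := (hmem t).1 ht
      exact H.phi2_phi2 h1 h2 j
  · intro s hs s' hs' hne
    rw [Function.onFun, Finset.disjoint_left]
    intro t ht ht'
    exact hne ((him s hs t ht).symm.trans (him s' hs' t ht'))

/-- `(n + 1)!` times the fundamental cycle -/
noncomputable def fc (H : IsProjTri (m + 1) K R ρ p) : SChain (Mfd G K) (m + 1) :=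
  ∑ s ∈ R, ∑ t ∈ orderings (m + 1) s, sgn (Matrix.of fun i => p (t i)).det • H.qc t

theorem fundCycle_eq (H : IsProjTri (m + 1) K R ρ p) : fundCycle G (m + 1) K R p =
    ((m + 1 + 1).factorial : ℝ)⁻¹ • H.fc := rfl

theorem bd_fc (H : IsProjTri (m + 1) K R ρ p) : bd H.fc = 0 := by
  unfold fc
  rw [bd_sumL]
  have h1 : ∀ s ∈ R, bd (∑ t ∈ orderings (m + 1) s, sgn (Matrix.of fun i => p (t i)).det • H.qc t) =
      ∑ j : Fin (m + 1 + 1), ((-1 : ℝ) ^ (j : ℕ)) • ∑ t ∈ orderings (m + 1) s,
        sgn (Matrix.of fun i => p (t i)).det • H.qc (fun i => t (j.succAbove i)) := by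
    intro s hs
    rw [bd_sumL]
    simp only [Finset.smul_sum]
    rw [Finset.sum_comm]
    refine Finset.sum_congr rfl fun t ht => ?_
    rw [bd_smulL, H.bd_qc t (H.sub s hs) (mem_orderings.1 ht).1, Finset.smul_sum]
    exact Finset.sum_congr rfl fun j _ => smul_comm _ _ _
  rw [Finset.sum_congr rfl h1, Finset.sum_comm]
  refine Finset.sum_eq_zero fun j _ => ?_
  rw [← Finset.smul_sum, H.sum_face j, smul_zero]

theorem bd_fundCycle (H : IsProjTri (m + 1) K R ρ p) : bd (fundCycle G (m + 1) K R p) = 0 := by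
  rw [H.fundCycle_eq, bd_smulL, H.bd_fc, smul_zero]

end IsProjTri

end MP8a95ee.CP
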