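import Pool.Agent.Work.MP_8a95ee_gt.CP.Top

/-!
# Elementary facts about singular chains; evaluation of a cochain; affine simplices
-/

set_option autoImplicit false

namespace MP8a95ee.CP

section chains

variable {X Y : Type} [TopologicalSpace X] [TopologicalSpace Y] {n : ℕ}

/-- `bd` as a linear map -/
noncomputable def bdL (X : Type) [TopologicalSpace X] (n : ℕ) :
    SChain X (n + 1) →ₗ[ℝ] SChain X n :=
  Finsupp.linearCombination ℝ fun σ => ∑ i : Fin (n + 2), Finsupp.single (face σ i) ((-1 : ℝ) ^ (i : ℕ))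

theorem bd_eqL (c : SChain X (n + 1)) : bd c = bdL X n c := by
  unfold bd bdL
  rw [Finsupp.linearCombination_apply]
  refine Finsupp.sum_congr fun σ _ => ?_
  rw [Finset.smul_sum]
  refine Finset.sum_congr rfl fun i _ => ?_
  rw [Finsupp.smul_single, smul_eq_mul, mul_comm]

theorem bd_smulL (r : ℝ) (c : SChain X (n + 1)) : bd (r • c) = r • bd c := by
  rw [bd_eqL, bd_eqL, map_smul]

theorem bd_sumL {κ : Type*} (S : Finset κ) (f : κ → SChain X (n + 1)) :
    bd (∑ k ∈ S, f k) = ∑ k ∈ S, bd (f k) := by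
  rw [bd_eqL, map_sum]
  exact Finset.sum_congr rfl fun k _ => (bd_eqL _).symm

theorem bd_singleL (σ : SSimplex X (n + 1)) :
    bd (Finsupp.single σ (1 : ℝ)) =
      ∑ i : Fin (n + 2), ((-1 : ℝ) ^ (i : ℕ)) • Finsupp.single (face σ i) (1 : ℝ) := by
  unfold bd
  rw [Finsupp.sum_single_index (by simp)]
  refine Finset.sum_congr rfl fun i _ => ?_
  rw [Finsupp.smul_single, smul_eq_mul]

theorem push_single (f : C(X, Y)) (σ : SSimplex X n) (a : ℝ) :
    push f (Finsupp.single σ a) = Finsupp.single (f.comp σ) a := Finsupp.mapDomain_single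

/-- the value of a cochain at a chain -/
noncomputable def ev (C : SSimplex X n → ℝ) : SChain X n →ₗ[ℝ] ℝ := Finsupp.linearCombination ℝ C

theorem ev_single (C : SSimplex X n → ℝ) (σ : SSimplex X n) (a : ℝ) :
    ev C (Finsupp.single σ a) = a * C σ := by
  unfold ev
  rw [Finsupp.linearCombination_single, smul_eq_mul]

theorem abs_ev_le {C : SSimplex X n → ℝ} {B : ℝ} (hB : ∀ σ, |C σ| ≤ B) (c : SChain X n) :
    |ev C c| ≤ B * l1 c := by
  unfold ev l1
  rw [Finsupp.linearCombination_apply, Finsupp.sum, Finsupp.sum, Finset.mul_sum]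
  refine (Finset.abs_sum_le_sum_abs _ _).trans (Finset.sum_le_sum fun σ _ => ?_)
  rw [smul_eq_mul, abs_mul, mul_comm B]
  exact mul_le_mul_of_nonneg_left (hB σ) (abs_nonneg _)

theorem ev_bd {C : SSimplex X n → ℝ}
    (hC : ∀ σ : SSimplex X (n + 1), ∑ i : Fin (n + 2), (-1 : ℝ) ^ (i : ℕ) * C (face σ i) = 0)
    (w : SChain X (n + 1)) : ev C (bd w) = 0 := by
  rw [bd_eqL]
  have h : (ev C).comp (bdL X n) = 0 := by
    refine Finsupp.lhom_ext' fun σ => LinearMap.ext_ring ?_
    rw [LinearMap.comp_apply, LinearMap.comp_apply, Finsupp.lsingle_apply, LinearMap.comp_apply,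
      ← bd_eqL, bd_singleL, map_sum]
    rw [LinearMap.zero_apply]
    rw [← hC σ]
    refine Finset.sum_congr rfl fun i _ => ?_
    rw [map_smul, ev_single, smul_eq_mul, one_mul]
  exact LinearMap.congr_fun h w

theorem ev_push (C : SSimplex X n → ℝ) (f : C(Y, X)) (z : SChain Y n) :
    ev C (push f z) = ev (fun σ => C (f.comp σ)) z := by
  unfold ev push
  rw [Finsupp.linearCombination_mapDomain]
  rfl

end chains

variable {V G : Type} [Group G] [MulAction G V]

theorem sum_simPt {n : ℕ} (t : Fin (n + 1) → V) (x : stdSimplex ℝ (Fin (n + 1))) (s : Finset V)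
    (h : ∀ i, t i ∈ s) : ∑ v ∈ s, simPt t x v = 1 := by
  classical
  unfold simPt
  rw [Finset.sum_comm]
  have h1 : ∀ i : Fin (n + 1), (∑ v ∈ s, if t i = v then x i else 0) = x i := by
    intro i
    rw [Finset.sum_ite_eq, if_pos (h i)]
  rw [Finset.sum_congr rfl fun i _ => h1 i]
  exact x.2.2

theorem simPt_mem {n : ℕ} {K : Set (Finset V)} {s : Finset V} (hs : s ∈ K) (t : Fin (n + 1) → V)
    (h : ∀ i, t i ∈ s) (x : stdSimplex ℝ (Fin (n + 1))) : simPt t x ∈ realisation K := by
  classical
  refine ⟨fun v => ?_, s, hs, fun v hv => ?_, sum_simPt t x s h⟩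
  · unfold simPt
    refine Finset.sum_nonneg fun i _ => ?_
    split_ifs
    · exact x.2.1 i
    · exact le_rfl
  · unfold simPt
    refine Finset.sum_eq_zero fun i _ => ?_
    rw [if_neg]
    rintro rfl
    exact hv (h i)

/-- the affine simplex as a singular simplex -/
noncomputable def sim {n : ℕ} {K : Set (Finset V)} (t : Fin (n + 1) → V)
    (h : ∀ x, simPt t x ∈ realisation K) : SSimplex (realisation K) n :=
  ⟨fun x => ⟨simPt t x, h x⟩, (continuous_simPt t).subtype_mk _⟩

theorem simCh_eq {n : ℕ} {K : Set (Finset V)} (t : Fin (n + 1) → V)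
    (h : ∀ x, simPt t x ∈ realisation K) : simCh K t = Finsupp.single (sim t h) 1 := by
  unfold simCh
  rw [dif_pos h]
  rfl

theorem simPt_vertex {n : ℕ} (t : Fin (n + 1) → V) (j : Fin (n + 1)) (y : V) :
    simPt t (stdSimplex.vertex j) y ≠ 0 ↔ y = t j := by
  classical
  unfold simPt
  rw [Finset.sum_eq_single j]
  · have h1 : (stdSimplex.vertex (S := ℝ) j) j = 1 := by
      rw [stdSimplex.vertex_coe, Pi.single_eq_same]
    rw [h1]
    constructor
    · intro h
      by_contra hne
      exact h (if_neg fun e => hne e.symm)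
    · intro h
      rw [if_pos h.symm]
      exact one_ne_zero
  · intro i _ hij
    have h1 : (stdSimplex.vertex (S := ℝ) j) i = 0 := by
      rw [stdSimplex.vertex_coe, Pi.single_eq_of_ne hij]
    rw [h1]
    split_ifs <;> rfl
  · intro h
    exact absurd (Finset.mem_univ _) h

theorem simPt_map {n : ℕ} (t : Fin (n + 2) → V) (i : Fin (n + 2))
    (x : stdSimplex ℝ (Fin (n + 1))) :
    simPt t (stdSimplex.map i.succAbove x) = simPt (fun j => t (i.succAbove j)) x := by
  classical
  funext v
  unfold simPt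
  rw [stdSimplex.map_coe]
  simp_rw [FunOnFinite.linearMap_apply_apply]
  rw [← Finset.sum_fiberwise Finset.univ i.succAbove
    (fun j => if t (i.succAbove j) = v then x j else 0)]
  refine Finset.sum_congr rfl fun k _ => ?_
  split_ifs with hk
  · refine Finset.sum_congr rfl fun j hj => ?_
    rw [(Finset.mem_filter.1 hj).2, if_pos hk]
  · symm
    refine Finset.sum_eq_zero fun j hj => ?_
    rw [(Finset.mem_filter.1 hj).2, if_neg hk]

theorem face_sim {n : ℕ} {K : Set (Finset V)} (t : Fin (n + 2) → V)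
    (h : ∀ x, simPt t x ∈ realisation K) (i : Fin (n + 2))
    (h' : ∀ x, simPt (fun j => t (i.succAbove j)) x ∈ realisation K) :
    face (sim t h) i = sim (fun j => t (i.succAbove j)) h' := by
  apply ContinuousMap.ext
  intro x
  apply Subtype.ext
  exact simPt_map t i x

/-- two affine simplices with equivalent vertices have the same image in the quotient -/
theorem proj_sim {n : ℕ} {K : Set (Finset V)} (t t' : Fin (n + 1) → V) (g : G)
    (hg : ∀ i, t' i = g • t i)
    (h : ∀ x, simPt t x ∈ realisation K) (h' : ∀ x, simPt t' x ∈ realisation K) :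
    (proj G K).comp (sim t h) = (proj G K).comp (sim t' h') := by
  classical
  apply ContinuousMap.ext
  intro x
  refine Quotient.sound ⟨g, fun v => ?_⟩
  show simPt t' x (g • v) = simPt t x v
  unfold simPt
  refine Finset.sum_congr rfl fun i _ => ?_
  rw [hg i]
  simp only [smul_left_cancel_iff]

end MP8a95ee.CP
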