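import Pool.Agent.Work.MP_8a95ee_gt.CP.Ord

/-!
# The function `F` and its cocycle identity
-/

set_option autoImplicit false

namespace MP8a95ee.CP

open Matrix

/-- the coordinates of `w` in the basis `v` -/
noncomputable def crd {n : ℕ} (v : Fin (n + 1) → Fin (n + 1) → ℝ) (w : Fin (n + 1) → ℝ) :
    Fin (n + 1) → ℝ :=
  w ᵥ* (Matrix.of v)⁻¹

/-- the number of positive coordinates different from the `i`-th -/
noncomputable def Qn {n : ℕ} (x : Fin (n + 1) → ℝ) (i : Fin (n + 1)) : ℕ :=
  (Finset.univ.filter fun j => j ≠ i ∧ 0 < x j).card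

/-- the cochain -/
noncomputable def FF (n : ℕ) (v w : Fin (n + 1) → Fin (n + 1) → ℝ) : ℝ :=
  sgn (Matrix.of v).det * ∑ i, gq n (Qn (crd v (w i)) i)

theorem vecMul_eq_sum {n : ℕ} (v : Fin (n + 1) → Fin (n + 1) → ℝ) (x : Fin (n + 1) → ℝ) :
    x ᵥ* Matrix.of v = ∑ k, x k • v k := by
  ext a
  simp [Matrix.vecMul, dotProduct]

theorem crd_spec {n : ℕ} {v : Fin (n + 1) → Fin (n + 1) → ℝ} (hv : (Matrix.of v).det ≠ 0)
    (w : Fin (n + 1) → ℝ) : ∑ k, crd v w k • v k = w := by
  rw [← vecMul_eq_sum]
  unfold crd
  rw [Matrix.vecMul_vecMul, Matrix.nonsing_inv_mul _ (isUnit_iff_ne_zero.2 hv), Matrix.vecMul_one]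

theorem crd_unique {n : ℕ} {v : Fin (n + 1) → Fin (n + 1) → ℝ} (hv : (Matrix.of v).det ≠ 0)
    {w x : Fin (n + 1) → ℝ} (h : ∑ k, x k • v k = w) : crd v w = x := by
  rw [← h, ← vecMul_eq_sum]
  unfold crd
  rw [Matrix.vecMul_vecMul, Matrix.mul_nonsing_inv _ (isUnit_iff_ne_zero.2 hv), Matrix.vecMul_one]

theorem abs_FF_le {n : ℕ} (v w : Fin (n + 1) → Fin (n + 1) → ℝ) : |FF n v w| ≤ 1 := by
  unfold FF
  rw [abs_mul]
  have h1 : |∑ i, gq n (Qn (crd v (w i)) i)| ≤ 1 := by
    refine (Finset.abs_sum_le_sum_abs _ _).trans ?_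
    refine (Finset.sum_le_sum fun i _ => abs_gq_le n _).trans ?_
    rw [Finset.sum_const, Finset.card_univ, Fintype.card_fin, nsmul_eq_mul]
    push_cast
    rw [mul_one_div, div_self (by positivity)]
  calc _ ≤ 1 * 1 := mul_le_mul (abs_sgn_le _) h1 (abs_nonneg _) zero_le_one
    _ = 1 := one_mul 1

/-- the relation between `n + 2` vectors -/
theorem relation {n : ℕ} (v : Fin (n + 2) → Fin (n + 1) → ℝ) :
    ∑ j : Fin (n + 2), ((-1 : ℝ) ^ (j : ℕ) * (Matrix.of fun k => v (j.succAbove k)).det) • v j = 0 := by
  ext a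
  let M : Matrix (Fin (n + 2)) (Fin (n + 2)) ℝ :=
    Matrix.of fun j => Fin.cons (v j a) (v j)
  have h0 : M.det = 0 := by
    apply Matrix.det_zero_of_column_eq (i := 0) (j := a.succ) (Fin.succ_ne_zero a).symm
    intro k
    simp [M]
  rw [Matrix.det_succ_column_zero] at h0
  simp only [Finset.sum_apply, Pi.smul_apply, smul_eq_mul, Pi.zero_apply]
  rw [← h0]
  refine Finset.sum_congr rfl fun j _ => ?_
  have h1 : M.submatrix j.succAbove Fin.succ = Matrix.of fun k => v (j.succAbove k) := by
    ext k b
    simp [M]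
  have h2 : M j 0 = v j a := by simp [M]
  rw [h1, h2]
  ring

/-- reindexing of the complement of `j` -/
theorem card_succAbove {n : ℕ} (j : Fin (n + 2)) (P : Fin (n + 2) → Prop) [DecidablePred P] :
    (Finset.univ.filter fun k : Fin (n + 1) => P (j.succAbove k)).card =
      (Finset.univ.filter fun k : Fin (n + 2) => k ≠ j ∧ P k).card := by
  rw [← Finset.card_map (Fin.succAboveEmb j)]
  congr 1
  ext k
  simp only [Finset.mem_map, Finset.mem_filter, Finset.mem_univ, true_and, Fin.succAboveEmb_apply]
  constructor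
  · rintro ⟨k', hk', rfl⟩
    exact ⟨Fin.succAbove_ne j k', hk'⟩
  · rintro ⟨hk, hP⟩
    obtain ⟨k', rfl⟩ := Fin.exists_succAbove_eq hk
    exact ⟨k', hP, rfl⟩

theorem FF_cocycle {n : ℕ} (v w : Fin (n + 2) → Fin (n + 1) → ℝ)
    (hdet : ∀ j : Fin (n + 2), (Matrix.of fun k => v (j.succAbove k)).det ≠ 0)
    (hgen : ∀ (j : Fin (n + 2)) (i k : Fin (n + 1)), k ≠ i →
      crd (fun k => v (j.succAbove k)) (w (j.succAbove i)) k ≠ 0)
    (hpos : ∃ l : Fin (n + 1) → ℝ, ∀ j, 0 < ∑ a, l a * v j a) :
    ∑ j : Fin (n + 2), (-1 : ℝ) ^ (j : ℕ) *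
      FF n (fun k => v (j.succAbove k)) (fun k => w (j.succAbove k)) = 0 := by
  set c : Fin (n + 2) → ℝ := fun j =>
    (-1 : ℝ) ^ (j : ℕ) * (Matrix.of fun k => v (j.succAbove k)).det with hcdef
  have hrel : ∑ j, c j • v j = 0 := relation v
  have hc : ∀ j, c j ≠ 0 := fun j => mul_ne_zero (pow_ne_zero _ (by norm_num)) (hdet j)
  -- coordinates of the vectors `w i` with respect to all the `v k`
  have hex : ∀ i, ∃ a : Fin (n + 2) → ℝ, ∑ k, a k • v k = w i := by
    intro i
    refine ⟨Fin.cons 0 (crd (fun k => v ((0 : Fin (n + 2)).succAbove k)) (w i)), ?_⟩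
    rw [Fin.sum_univ_succ]
    simp only [Fin.cons_zero, zero_smul, zero_add, Fin.cons_succ]
    exact crd_spec (hdet 0) (w i)
  choose a ha using hex
  set τ : Fin (n + 2) → Fin (n + 2) → ℝ := fun i k => a i k / c k with hτdef
  have hcrd : ∀ (j : Fin (n + 2)) (i : Fin (n + 2)) (k : Fin (n + 1)),
      crd (fun k => v (j.succAbove k)) (w i) k =
        c (j.succAbove k) * (τ i (j.succAbove k) - τ i j) := by
    intro j i k
    have h1 : crd (fun k => v (j.succAbove k)) (w i) =
        fun k => c (j.succAbove k) * (τ i (j.succAbove k) - τ i j) := by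
      apply crd_unique (hdet j)
      have h2 : ∑ k, (c k * (τ i k - τ i j)) • v k = w i := by
        have h3 : ∀ k, (c k * (τ i k - τ i j)) • v k = a i k • v k - τ i j • (c k • v k) := by
          intro k
          have h4 : c k * τ i k = a i k := by
            simp only [hτdef]
            field_simp [hc k]
          rw [mul_sub, h4, sub_smul, mul_comm (c k), smul_smul]
        simp only [h3]
        rw [Finset.sum_sub_distrib, ha i, ← Finset.smul_sum, hrel, smul_zero, sub_zero]
      rw [Fin.sum_univ_succAbove _ j] at h2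
      simpa using h2
    rw [h1]
  have hτ : ∀ i j k, j ≠ i → k ≠ i → j ≠ k → τ i j ≠ τ i k := by
    intro i j k hji hki hjk heq
    obtain ⟨i', hi'⟩ := Fin.exists_succAbove_eq hji.symm
    obtain ⟨k', hk'⟩ := Fin.exists_succAbove_eq hjk.symm
    have hne : k' ≠ i' := by
      rintro rfl
      exact hki (hk'.symm.trans hi')
    apply hgen j i' k' hne
    rw [hi', hcrd, hk', heq, sub_self, mul_zero]
  -- rewriting of the sum
  have hstep : ∀ j : Fin (n + 2), (-1 : ℝ) ^ (j : ℕ) *
      FF n (fun k => v (j.succAbove k)) (fun k => w (j.succAbove k)) =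
      ∑ i ∈ Finset.univ.erase j, sgn (c j) * gq n ((Finset.univ.erase i).filter fun k =>
        k ≠ j ∧ 0 < c k * (τ i k - τ i j)).card := by
    intro j
    unfold FF
    rw [← mul_assoc, ← sgn_neg_one_pow (j : ℕ), ← sgn_mul, Finset.mul_sum]
    have h1 : ∀ f : Fin (n + 2) → ℝ, ∑ i ∈ Finset.univ.erase j, f i =
        ∑ i' : Fin (n + 1), f (j.succAbove i') := by
      intro f
      have h2 := Fin.sum_univ_succAbove f j
      have h3 := Finset.add_sum_erase Finset.univ f (Finset.mem_univ j)
      linarith
    rw [h1]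
    refine Finset.sum_congr rfl fun i' _ => ?_
    congr 2
    unfold Qn
    have h2 : (Finset.univ.filter fun k : Fin (n + 1) => k ≠ i' ∧
        0 < crd (fun k => v (j.succAbove k)) (w (j.succAbove i')) k) =
        Finset.univ.filter fun k : Fin (n + 1) => (fun k : Fin (n + 2) => k ≠ j.succAbove i' ∧
          0 < c k * (τ (j.succAbove i') k - τ (j.succAbove i') j)) (j.succAbove k) := by
      ext k
      simp only [Finset.mem_filter, Finset.mem_univ, true_and, hcrd]
      have h3 : k ≠ i' ↔ j.succAbove k ≠ j.succAbove i' :=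
        not_congr (Fin.succAbove_right_inj (p := j)).symm
      rw [h3]
    rw [h2, card_succAbove j (fun k : Fin (n + 2) => k ≠ j.succAbove i' ∧
          0 < c k * (τ (j.succAbove i') k - τ (j.succAbove i') j))]
    congr 1
    ext k
    simp only [Finset.mem_filter, Finset.mem_univ, true_and, Finset.mem_erase]
    tauto
  rw [Finset.sum_congr rfl fun j _ => hstep j]
  -- exchange of the sums and telescoping
  have hswap : ∑ j : Fin (n + 2), ∑ i ∈ Finset.univ.erase j, sgn (c j) *
      gq n ((Finset.univ.erase i).filter fun k => k ≠ j ∧ 0 < c k * (τ i k - τ i j)).card =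
      ∑ i : Fin (n + 2), ∑ j ∈ Finset.univ.erase i, sgn (c j) *
      gq n ((Finset.univ.erase i).filter fun k => k ≠ j ∧ 0 < c k * (τ i k - τ i j)).card := by
    apply Finset.sum_comm'
    intro x y
    simp only [Finset.mem_univ, Finset.mem_erase, and_true, true_and]
    exact ⟨fun h => h.symm, fun h => h.symm⟩
  rw [hswap]
  have htel : ∀ i : Fin (n + 2), ∑ j ∈ Finset.univ.erase i, sgn (c j) *
      gq n ((Finset.univ.erase i).filter fun k => k ≠ j ∧ 0 < c k * (τ i k - τ i j)).card =
      ∑ q ∈ Finset.range ((Finset.univ.erase i).filter fun k => 0 < c k).card, gq n q -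
        ∑ q ∈ Finset.range ((Finset.univ.erase i).filter fun k => c k < 0).card, gq n q := by
    intro i
    apply telescope (Finset.univ.erase i) c (τ i)
    · intro j hj k hk hjk
      exact hτ i j k (Finset.ne_of_mem_erase hj) (Finset.ne_of_mem_erase hk) hjk
    · intro j _
      exact hc j
  rw [Finset.sum_congr rfl fun i _ => htel i]
  -- counting
  set P : Finset (Fin (n + 2)) := Finset.univ.filter fun k => 0 < c k with hP
  set N : Finset (Fin (n + 2)) := Finset.univ.filter fun k => c k < 0 with hN
  have hPN : P.card + N.card = n + 2 := by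
    have h1 : N = Finset.univ.filter fun k => ¬ 0 < c k := by
      rw [hN]
      ext k
      simp only [Finset.mem_filter, Finset.mem_univ, true_and, not_lt]
      exact ⟨le_of_lt, fun h => lt_of_le_of_ne h (hc k)⟩
    rw [h1, hP, Finset.card_filter_add_card_filter_not]
    simp
  obtain ⟨l, hl⟩ := hpos
  have hsum0 : ∑ j, c j * ∑ b, l b * v j b = 0 := by
    have h1 : ∀ b, ∑ j, c j * v j b = 0 := by
      intro b
      have := congrFun hrel b
      simpa using this
    calc ∑ j, c j * ∑ b, l b * v j b = ∑ j, ∑ b, l b * (c j * v j b) := by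
          refine Finset.sum_congr rfl fun j _ => ?_
          rw [Finset.mul_sum]
          refine Finset.sum_congr rfl fun b _ => ?_
          ring
      _ = ∑ b, ∑ j, l b * (c j * v j b) := Finset.sum_comm
      _ = 0 := by
          refine Finset.sum_eq_zero fun b _ => ?_
          rw [← Finset.mul_sum, h1, mul_zero]
  have hPpos : 0 < P.card := by
    rw [Finset.card_pos]
    by_contra hempty
    rw [Finset.not_nonempty_iff_eq_empty] at hempty
    have hneg : ∀ k, c k < 0 := by
      intro k
      rcases lt_or_gt_of_ne (hc k) with h | h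
      · exact h
      · have : k ∈ P := by rw [hP]; simp [h]
        rw [hempty] at this
        exact absurd this (Finset.notMem_empty _)
    have : ∑ j, c j * ∑ b, l b * v j b < 0 := by
      apply Finset.sum_neg
      · intro j _
        exact mul_neg_of_neg_of_pos (hneg j) (hl j)
      · exact Finset.univ_nonempty
    linarith
  have hNpos : 0 < N.card := by
    rw [Finset.card_pos]
    by_contra hempty
    rw [Finset.not_nonempty_iff_eq_empty] at hempty
    have hp : ∀ k, 0 < c k := by
      intro k
      rcases lt_or_gt_of_ne (hc k) with h | h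
      · have : k ∈ N := by rw [hN]; simp [h]
        rw [hempty] at this
        exact absurd this (Finset.notMem_empty _)
      · exact h
    have : 0 < ∑ j, c j * ∑ b, l b * v j b := by
      apply Finset.sum_pos
      · intro j _
        exact mul_pos (hp j) (hl j)
      · exact Finset.univ_nonempty
    linarith
  have hcardP : ∀ i, ((Finset.univ.erase i).filter fun k => 0 < c k).card =
      if 0 < c i then P.card - 1 else P.card := by
    intro i
    have h1 : ((Finset.univ.erase i).filter fun k => 0 < c k) = P.erase i := by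
      rw [hP]; ext k; simp only [Finset.mem_filter, Finset.mem_erase, Finset.mem_univ]; tauto
    rw [h1]
    split_ifs with h
    · exact Finset.card_erase_of_mem (by rw [hP]; simp [h])
    · rw [Finset.erase_eq_of_notMem]
      rw [hP]; simpa using h
  have hcardN : ∀ i, ((Finset.univ.erase i).filter fun k => c k < 0).card =
      if 0 < c i then N.card else N.card - 1 := by
    intro i
    have h1 : ((Finset.univ.erase i).filter fun k => c k < 0) = N.erase i := by
      rw [hN]; ext k; simp only [Finset.mem_filter, Finset.mem_erase, Finset.mem_univ]; tauto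
    rw [h1]
    split_ifs with h
    · rw [Finset.erase_eq_of_notMem]
      rw [hN]; simp only [Finset.mem_filter, Finset.mem_univ, true_and, not_lt]; exact h.le
    · refine Finset.card_erase_of_mem ?_
      rw [hN]; simp only [Finset.mem_filter, Finset.mem_univ, true_and]
      exact lt_of_le_of_ne (not_lt.1 h) (hc i)
  set G : ℕ → ℝ := fun m => ∑ q ∈ Finset.range m, gq n q with hG
  have hfin : ∀ i, ∑ q ∈ Finset.range ((Finset.univ.erase i).filter fun k => 0 < c k).card, gq n q -
        ∑ q ∈ Finset.range ((Finset.univ.erase i).filter fun k => c k < 0).card, gq n q =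
      if 0 < c i then G (P.card - 1) - G N.card else G P.card - G (N.card - 1) := by
    intro i
    rw [hcardP, hcardN]
    split_ifs <;> rfl
  rw [Finset.sum_congr rfl fun i _ => hfin i, Finset.sum_ite, Finset.sum_const, Finset.sum_const]
  have hcN : (Finset.univ.filter fun i => ¬ 0 < c i).card = N.card := by
    have h1 : (Finset.univ.filter fun i => 0 < c i).card +
        (Finset.univ.filter fun i => ¬ 0 < c i).card = n + 2 := by
      rw [Finset.card_filter_add_card_filter_not]; simp
    have h2 : (Finset.univ.filter fun i => 0 < c i).card = P.card := rfl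
    omega
  have hcP : (Finset.univ.filter fun i => 0 < c i).card = P.card := rfl
  rw [hcN, hcP, nsmul_eq_mul, nsmul_eq_mul]
  obtain ⟨p, hp⟩ : ∃ p, P.card = p + 1 := ⟨P.card - 1, by omega⟩
  obtain ⟨m, hm⟩ : ∃ m, N.card = m + 1 := ⟨N.card - 1, by omega⟩
  have hpm : p + m = n := by omega
  have e1 := H_const n p (by omega)
  have e2 := H_const n m (by omega)
  rw [hp, hm]
  simp only [Nat.add_sub_cancel, hG]
  have hn : (n : ℝ) = p + m := by exact_mod_cast hpm.symm
  rw [hn] at e1 e2
  push_cast
  linear_combination e1 - e2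

end MP8a95ee.CP
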