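import Pool.Agent.Work.MP_8a95ee_gt.DefsE

/-!
# Closed real projective manifolds with straight triangulations: definitions

A closed manifold `M` with a real projective structure whose developing image lies in an affine
chart is described by a straight triangulation of a covering space: a simplicial complex `K` on
which a group `G` acts freely with finitely many orbits of simplices, a representation `ρ` of `G`
by matrices and an equivariant map `p` from the vertices of `K` to vectors of `ℝ ^ (n + 1)` (the
rays of these vectors are the images of the vertices under the developing map to the sphere of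
rays of `ℝ ^ (n + 1)`).
-/

set_option autoImplicit false

namespace MP8a95ee.CP

variable {V G : Type} [Group G] [MulAction G V]

open Classical in
/-- The image of a finite set of vertices under a group element. -/
noncomputable def tr (g : G) (s : Finset V) : Finset V := s.image fun v => g • v

/-- `K`, a set of finite nonempty sets of vertices (the simplices), with an action of the group `G`,
a representation `ρ` of `G` and vectors `p v` is a straight triangulation of (a covering space of) a
closed oriented real projective manifold of dimension `n`:
`K` is a simplicial complex with vertex set `V` (`nonempty`, `down`, `vert`), invariant under `G`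
(`inv`); every simplex is the image `g s` of an element `s` of the finite set `R` of simplices for
exactly one pair `(g, s)`, so `G` acts freely on the geometric realisation and `R` contains one
simplex of every orbit (`sub`, `rep`); `ρ` has positive determinants and `p` is equivariant
(`orient`, `equiv`); all vectors `p v` lie in an open half space, that is, the vertices are mapped
to an affine chart (`chart`); for every simplex `s` each vector `w` lies in exactly one of the
relatively open cones `span (p s) + {positive combinations of the p v, v ∈ t \ s}`, `t` a simplex
that contains `s` (`fan`: the star of `s` is mapped to a neighbourhood of the image of `s` by a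
homeomorphism). -/
structure IsProjTri (n : ℕ) (K : Set (Finset V)) (R : Finset (Finset V))
    (ρ : G →* Matrix (Fin (n + 1)) (Fin (n + 1)) ℝ) (p : V → Fin (n + 1) → ℝ) : Prop where
  nonempty : ∀ s ∈ K, s.Nonempty
  down : ∀ s ∈ K, ∀ t ⊆ s, t.Nonempty → t ∈ K
  vert : ∀ v, {v} ∈ K
  inv : ∀ (g : G), ∀ s ∈ K, tr g s ∈ K
  sub : ∀ s ∈ R, s ∈ K
  rep : ∀ s ∈ K, ∃! q : G × Finset V, q.2 ∈ R ∧ tr q.1 q.2 = s
  orient : ∀ g, 0 < (ρ g).det
  equiv : ∀ g v, p (g • v) = (ρ g).mulVec (p v)
  chart : ∃ l : Fin (n + 1) → ℝ, ∀ v, 0 < ∑ i, l i * p v i
  fan : ∀ s ∈ K, ∀ w : Fin (n + 1) → ℝ, ∃! t, t ∈ K ∧ s ⊆ t ∧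
    ∃ a : V → ℝ, (∀ v ∈ t, v ∉ s → 0 < a v) ∧ ∑ v ∈ t, a v • p v = w

/-- The geometric realisation of `K`: the families of nonnegative barycentric coordinates which
vanish outside a simplex and have sum `1`, with the product topology (which is the usual topology,
because `K` is locally finite). -/
def realisation (K : Set (Finset V)) : Set (V → ℝ) :=
  {x | (∀ v, 0 ≤ x v) ∧ ∃ s ∈ K, (∀ v, v ∉ s → x v = 0) ∧ ∑ v ∈ s, x v = 1}

variable (G) in
/-- Two points of the geometric realisation are equivalent if an element of `G` maps one to the
other. -/
def orb (K : Set (Finset V)) : Setoid (realisation K) where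
  r x y := ∃ g : G, ∀ v, (y : V → ℝ) (g • v) = (x : V → ℝ) v
  iseqv :=
    { refl := fun _ => ⟨1, fun _ => by rw [one_smul]⟩
      symm := fun {x y} ⟨g, h⟩ => ⟨g⁻¹, fun v => by rw [← h (g⁻¹ • v), smul_inv_smul]⟩
      trans := fun {x y z} ⟨g, h⟩ ⟨g', h'⟩ => ⟨g' * g, fun v => by rw [mul_smul, h', h]⟩ }

variable (G) in
/-- The closed manifold `M`: the quotient of the geometric realisation of `K` by `G`. -/
def Mfd (K : Set (Finset V)) : Type := Quotient (orb G K)

/-- The quotient topology. -/
instance (K : Set (Finset V)) : TopologicalSpace (Mfd G K) :=
  instTopologicalSpaceQuotient (s := orb G K)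

variable (G) in
/-- The projection to the quotient. -/
def proj (K : Set (Finset V)) : C(realisation K, Mfd G K) :=
  ⟨Quotient.mk (orb G K), continuous_quotient_mk'⟩

open Classical in
/-- The point with barycentric coordinates `x` of the affine simplex with the vertices
`t 0, ..., t n` of `K`. -/
noncomputable def simPt {n : ℕ} (t : Fin (n + 1) → V) (x : stdSimplex ℝ (Fin (n + 1))) : V → ℝ :=
  fun v => ∑ i, if t i = v then x i else 0

theorem continuous_simPt {n : ℕ} (t : Fin (n + 1) → V) : Continuous (simPt t) := by
  classical
  refine continuous_pi fun v => ?_
  unfold simPt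
  refine continuous_finsetSum _ fun i _ => ?_
  split_ifs
  · exact (continuous_apply i).comp continuous_subtype_val
  · exact continuous_const

open Classical in
/-- The affine simplex with the vertices `t 0, ..., t n`, as a singular chain of the geometric
realisation (zero if it is not contained in it). -/
noncomputable def simCh (K : Set (Finset V)) {n : ℕ} (t : Fin (n + 1) → V) :
    SChain (realisation K) n :=
  if h : ∀ x, simPt t x ∈ realisation K then
    Finsupp.single ⟨fun x => ⟨simPt t x, h x⟩, (continuous_simPt t).subtype_mk _⟩ 1
  else 0

open Classical in
/-- The orderings of a set of `n + 1` vertices: all injective `(n + 1)`-tuples of its elements. -/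
noncomputable def orderings (n : ℕ) (s : Finset V) : Finset (Fin (n + 1) → V) :=
  (Fintype.piFinset fun _ : Fin (n + 1) => s).filter Function.Injective

variable (G) in
/-- The fundamental cycle of `M`: the sum over the representatives `s` of the orbits of
`n`-simplices and the average over all orderings `t` of the vertices of `s` of the sign of the
determinant of `p (t 0), ..., p (t n)` times the affine simplex `t`. -/
noncomputable def fundCycle (n : ℕ) (K : Set (Finset V)) (R : Finset (Finset V))
    (p : V → Fin (n + 1) → ℝ) : SChain (Mfd G K) n :=
  ((n + 1).factorial : ℝ)⁻¹ • ∑ s ∈ R, ∑ t ∈ orderings n s,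
    ((SignType.sign (Matrix.of fun i => p (t i)).det : SignType) : ℝ) •
      push (proj G K) (simCh K t)

/-- The Euler characteristic of `M`: the alternating sum of the numbers of orbits of simplices of
each dimension. -/
def eulerChar (R : Finset (Finset V)) : ℤ := ∑ s ∈ R, (-1) ^ (s.card + 1)

end MP8a95ee.CP
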