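import Pool.Agent.Work.MP_8a95ee_gt.CP.Inv

/-!
# The value of the cocycle on the fundamental cycle
-/

set_option autoImplicit false

namespace MP8a95ee.CP

open Matrix Filter Topology

variable {V G : Type} [Group G] [MulAction G V]

/-! ### The Beta identity -/

theorem beta_rec {n q : ℕ} (h : q + 1 ≤ n) :
    (1 : ℝ) / ((n : ℝ) * ((n - 1).choose q : ℝ)) - 1 / (((n : ℝ) + 1) * (n.choose q : ℝ)) =
      1 / (((n : ℝ) + 1) * (n.choose (q + 1) : ℝ)) := by
  obtain ⟨m, rfl⟩ : ∃ m, n = m + 1 := ⟨n - 1, by omega⟩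
  rw [Nat.add_sub_cancel]
  have hq : q ≤ m := by omega
  have h1 : (((m + 1).choose (q + 1) : ℕ) : ℝ) * ((q : ℝ) + 1) = ((m : ℝ) + 1) * (m.choose q : ℝ) := by
    have := Nat.add_one_mul_choose_eq m q
    exact_mod_cast this.symm
  have h2 : (((m + 1).choose q : ℕ) : ℝ) * ((m : ℝ) + 1 - q) = ((m : ℝ) + 1) * (m.choose q : ℝ) := by
    have e := Nat.choose_succ_right_eq (m + 1) q
    have e' : (((m + 1).choose (q + 1) * (q + 1) : ℕ) : ℝ) =
        (((m + 1).choose q * (m + 1 - q) : ℕ) : ℝ) := by rw [e]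
    push_cast [Nat.cast_sub (show q ≤ m + 1 by omega)] at e'
    rw [← h1]
    linarith
  have c1 : (0 : ℝ) < (m.choose q : ℝ) := by exact_mod_cast Nat.choose_pos hq
  have c2 : (0 : ℝ) < ((m + 1).choose q : ℝ) := by
    exact_mod_cast Nat.choose_pos (show q ≤ m + 1 by omega)
  have c3 : (0 : ℝ) < ((m + 1).choose (q + 1) : ℝ) := by
    exact_mod_cast Nat.choose_pos (show q + 1 ≤ m + 1 by omega)
  have c4 : (0 : ℝ) < (m : ℝ) + 1 := by positivity
  have hqm : (q : ℝ) ≤ m := by exact_mod_cast hq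
  have c5 : (0 : ℝ) < (m : ℝ) + 1 - q := by linarith
  have c6 : (0 : ℝ) < (q : ℝ) + 1 := by positivity
  have e1 : (((m + 1).choose (q + 1) : ℕ) : ℝ) = ((m : ℝ) + 1) * (m.choose q : ℝ) / ((q : ℝ) + 1) := by
    rw [eq_div_iff c6.ne', h1]
  have e2 : (((m + 1).choose q : ℕ) : ℝ) = ((m : ℝ) + 1) * (m.choose q : ℝ) / ((m : ℝ) + 1 - q) := by
    rw [eq_div_iff c5.ne', h2]
  rw [e1, e2]
  push_cast
  field_simp
  ring

theorem beta {V : Type} [DecidableEq V] (P : Finset V) : ∀ n : ℕ, P.card ≤ n →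
    ∑ A ∈ P.powerset, (-1 : ℝ) ^ A.card / ((n : ℝ) + 1 - A.card) =
      (-1) ^ P.card / (((n : ℝ) + 1) * (n.choose P.card : ℝ)) := by
  induction P using Finset.induction_on with
  | empty => intro n _; simp
  | insert b P hb ih =>
    intro n hn
    rw [Finset.card_insert_of_notMem hb] at hn ⊢
    rw [Finset.sum_powerset_insert hb, ih n (by omega)]
    have h1 : ∀ A ∈ P.powerset, (-1 : ℝ) ^ (insert b A).card / ((n : ℝ) + 1 - (insert b A).card) =
        - ((-1 : ℝ) ^ A.card / (((n - 1 : ℕ) : ℝ) + 1 - A.card)) := by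
      intro A hA
      have hbA : b ∉ A := fun h => hb (Finset.mem_powerset.1 hA h)
      rw [Finset.card_insert_of_notMem hbA, pow_succ]
      have h2 : ((n - 1 : ℕ) : ℝ) = (n : ℝ) - 1 := by
        rw [Nat.cast_sub (by omega)]; simp
      rw [h2]
      push_cast
      have h3 : (n : ℝ) + 1 - ((A.card : ℝ) + 1) = (n : ℝ) - 1 + 1 - A.card := by ring
      rw [h3]
      ring
    rw [Finset.sum_congr rfl h1, Finset.sum_neg_distrib, ih (n - 1) (by omega), pow_succ]
    have h2 : ((n - 1 : ℕ) : ℝ) + 1 = (n : ℝ) := by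
      rw [Nat.cast_sub (by omega)]; simp
    rw [h2]
    have h3 := beta_rec (n := n) (q := P.card) hn
    have h4 : (-1 : ℝ) ^ P.card / (((n : ℝ) + 1) * (n.choose P.card : ℝ)) =
        (-1) ^ P.card * (1 / (((n : ℝ) + 1) * (n.choose P.card : ℝ))) := by ring
    have h5 : (-1 : ℝ) ^ P.card / ((n : ℝ) * ((n - 1).choose P.card : ℝ)) =
        (-1) ^ P.card * (1 / ((n : ℝ) * ((n - 1).choose P.card : ℝ))) := by ring
    have h6 : (-1 : ℝ) ^ P.card * -1 / (((n : ℝ) + 1) * (n.choose (P.card + 1) : ℝ)) =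
        (-1) ^ P.card * -(1 / (((n : ℝ) + 1) * (n.choose (P.card + 1) : ℝ))) := by ring
    rw [h4, h5, h6, ← h3]
    ring

/-- `gq` as a sum over the faces which contain `v` and whose complement consists of positive
coordinates. -/
theorem gq_eq_sum {V : Type} [DecidableEq V] {n : ℕ} (T : Finset V) (hT : T.card = n + 1) (v : V)
    (P : Finset V) (hP : P ⊆ T.erase v) (hv : v ∈ T) :
    gq n P.card = ∑ S ∈ T.powerset.filter fun S => v ∈ S ∧ T \ S ⊆ P,
      (-1 : ℝ) ^ (S.card + 1) / S.card := by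
  have hPc : P.card ≤ n := by
    have := Finset.card_le_card hP
    rw [Finset.card_erase_of_mem hv, hT] at this
    omega
  have h1 : ∑ S ∈ T.powerset.filter fun S => v ∈ S ∧ T \ S ⊆ P, (-1 : ℝ) ^ (S.card + 1) / S.card =
      ∑ A ∈ P.powerset, (-1 : ℝ) ^ n * ((-1 : ℝ) ^ A.card / ((n : ℝ) + 1 - A.card)) := by
    refine Finset.sum_bij' (fun S _ => T \ S) (fun A _ => T \ A) ?_ ?_ ?_ ?_ ?_
    · intro S hS
      rw [Finset.mem_filter] at hS
      exact Finset.mem_powerset.2 hS.2.2
    · intro A hA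
      have hA' := Finset.mem_powerset.1 hA
      rw [Finset.mem_filter, Finset.mem_powerset]
      refine ⟨Finset.sdiff_subset, ?_, ?_⟩
      · rw [Finset.mem_sdiff]
        exact ⟨hv, fun h => Finset.notMem_erase v T (hP (hA' h))⟩
      · have hAT : A ⊆ T := hA'.trans (hP.trans (Finset.erase_subset _ _))
        rw [Finset.sdiff_sdiff_eq_self hAT]
        exact hA'
    · intro S hS
      rw [Finset.mem_filter, Finset.mem_powerset] at hS
      exact Finset.sdiff_sdiff_eq_self hS.1
    · intro A hA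
      have hA' := Finset.mem_powerset.1 hA
      exact Finset.sdiff_sdiff_eq_self (hA'.trans (hP.trans (Finset.erase_subset _ _)))
    · intro S hS
      rw [Finset.mem_filter, Finset.mem_powerset] at hS
      have h2 : (T \ S).card + S.card = n + 1 := by
        rw [Finset.card_sdiff_add_card_eq_card hS.1, hT]
      have h3 : ((T \ S).card : ℝ) = (n : ℝ) + 1 - S.card := by
        have : (((T \ S).card + S.card : ℕ) : ℝ) = ((n + 1 : ℕ) : ℝ) := by rw [h2]
        push_cast at this
        linarith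
      rw [h3]
      have h4 : (n : ℝ) + 1 - ((n : ℝ) + 1 - S.card) = S.card := by ring
      rw [h4]
      have h5 : (-1 : ℝ) ^ n * (-1) ^ (T \ S).card = (-1) ^ (S.card + 1) := by
        rw [← pow_add]
        have h6 : n + (T \ S).card + 2 * S.card = (S.card + 1) + 2 * n := by omega
        have h7 : (-1 : ℝ) ^ (n + (T \ S).card) = (-1) ^ (n + (T \ S).card + 2 * S.card) := by
          rw [pow_add _ (n + (T \ S).card), pow_mul]; simp
        rw [h7, h6, pow_add, pow_mul]; simp
      rw [← h5]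
      ring
  rw [h1, ← Finset.mul_sum, beta P n hPc]
  unfold gq
  rw [pow_add]
  ring

namespace IsProjTri

variable {n : ℕ} {K : Set (Finset V)} {R : Finset (Finset V)}
  {ρ : G →* Matrix (Fin (n + 1)) (Fin (n + 1)) ℝ} {p : V → Fin (n + 1) → ℝ}

/-! ### Coordinates in a top simplex -/

open Classical in
/-- the coordinates of `w` in the basis `p v`, `v ∈ T` -/
noncomputable def cT (_ : IsProjTri n K R ρ p) (T : Finset V) (w : Fin (n + 1) → ℝ) : V → ℝ :=
  if h : ∃ a : V → ℝ, ∑ v ∈ T, a v • p v = w then h.choose else 0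

theorem mem_orderings {T : Finset V} {t : Fin (n + 1) → V} :
    t ∈ orderings n T ↔ (∀ i, t i ∈ T) ∧ Function.Injective t := by
  classical
  unfold orderings
  rw [Finset.mem_filter, Fintype.mem_piFinset]

theorem image_ordering [DecidableEq V] {T : Finset V} (hT : T.card ≤ n + 1)
    {t : Fin (n + 1) → V} (ht : t ∈ orderings n T) : Finset.univ.image t = T := by
  obtain ⟨h1, h2⟩ := mem_orderings.1 ht
  apply Finset.eq_of_subset_of_card_le
  · intro v hv
    obtain ⟨i, -, rfl⟩ := Finset.mem_image.1 hv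
    exact h1 i
  · rw [Finset.card_image_of_injective _ h2]
    simpa using hT

theorem sum_ordering {M : Type} [AddCommMonoid M] {T : Finset V} (hT : T.card ≤ n + 1)
    {t : Fin (n + 1) → V} (ht : t ∈ orderings n T) (f : V → M) :
    ∑ i, f (t i) = ∑ v ∈ T, f v := by
  classical
  rw [← image_ordering hT ht, Finset.sum_image fun a _ b _ h => (mem_orderings.1 ht).2 h]

theorem exists_ordering {T : Finset V} (hT : T.card = n + 1) :
    ∃ t : Fin (n + 1) → V, t ∈ orderings n T := by
  have e := T.equivFin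
  refine ⟨fun i => (T.equivFin.symm (Fin.cast hT.symm i) : V), ?_⟩
  rw [mem_orderings]
  refine ⟨fun i => Subtype.prop _, fun i j h => ?_⟩
  have h1 := T.equivFin.symm.injective (Subtype.ext h)
  exact Fin.cast_injective _ h1

theorem det_ordering (H : IsProjTri n K R ρ p) {T : Finset V} (hT : T ∈ K)
    {t : Fin (n + 1) → V} (ht : t ∈ orderings n T) :
    (Matrix.of fun i => p (t i)).det ≠ 0 :=
  H.det_ne (mem_orderings.1 ht).2 hT (mem_orderings.1 ht).1

theorem cT_spec (H : IsProjTri n K R ρ p) {T : Finset V} (hT : T ∈ K) (hc : T.card = n + 1)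
    (w : Fin (n + 1) → ℝ) : ∑ v ∈ T, H.cT T w v • p v = w := by
  classical
  have hex : ∃ a : V → ℝ, ∑ v ∈ T, a v • p v = w := by
    obtain ⟨t, ht⟩ := exists_ordering hc
    refine ⟨fun v => crd (fun i => p (t i)) w (Function.invFun t v), ?_⟩
    rw [← sum_ordering hc.le ht]
    simp only [Function.leftInverse_invFun (mem_orderings.1 ht).2 _]
    exact crd_spec (H.det_ordering hT ht) w
  unfold cT
  rw [dif_pos hex]
  exact hex.choose_spec

theorem cT_unique (H : IsProjTri n K R ρ p) {T : Finset V} (hT : T ∈ K) (hc : T.card = n + 1)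
    {w : Fin (n + 1) → ℝ} {a : V → ℝ} (ha : ∑ v ∈ T, a v • p v = w) :
    ∀ v ∈ T, H.cT T w v = a v := by
  intro v hv
  have h1 : ∑ v ∈ T, (H.cT T w v - a v) • p v = 0 := by
    simp only [sub_smul]
    rw [Finset.sum_sub_distrib, H.cT_spec hT hc w, ha, sub_self]
  exact sub_eq_zero.1 (H.indep hT h1 v hv)

theorem crd_eq_cT (H : IsProjTri n K R ρ p) {T : Finset V} (hT : T ∈ K) (hc : T.card = n + 1)
    {t : Fin (n + 1) → V} (ht : t ∈ orderings n T) (w : Fin (n + 1) → ℝ) (k : Fin (n + 1)) :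
    crd (fun i => p (t i)) w k = H.cT T w (t k) := by
  have h1 : crd (fun i => p (t i)) w = fun k => H.cT T w (t k) := by
    apply crd_unique (H.det_ordering hT ht)
    rw [sum_ordering hc.le ht (fun v => H.cT T w v • p v)]
    exact H.cT_spec hT hc w
  rw [h1]

theorem cT_smul (H : IsProjTri n K R ρ p) {T : Finset V} (hT : T ∈ K) (hc : T.card = n + 1)
    (g : G) (w : Fin (n + 1) → ℝ) (v : V) (hv : v ∈ T) :
    H.cT (tr g T) (ρ g *ᵥ w) (g • v) = H.cT T w v := by
  have h1 := H.cT_unique (H.inv g T hT) ((card_tr g T).trans hc) (w := ρ g *ᵥ w)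
    (a := fun u => H.cT T w (g⁻¹ • u)) (by
      rw [sum_tr]
      simp only [inv_smul_smul, H.equiv]
      have h2 := congrArg (fun x => ρ g *ᵥ x) (H.cT_spec hT hc w)
      simp only [Matrix.mulVec_sum, Matrix.mulVec_smul] at h2
      exact h2) (g • v) (smul_mem_tr.2 hv)
  rw [h1, inv_smul_smul]

/-! ### Generic parameters -/

theorem generic_dir (H : IsProjTri n K R ρ p) {t : Fin (n + 1) → V}
    (hdet : (Matrix.of fun i => p (t i)).det ≠ 0) (v : V) (k : Fin (n + 1)) :
    ∀ᶠ η in (U : Filter ℝ), crd (fun i => p (t i)) (H.dir v η) k ≠ 0 := by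
  let f : (Fin (n + 1) → ℝ) →ₗ[ℝ] ℝ :=
    (LinearMap.proj k).comp (Matrix.vecMulLinear (Matrix.of fun i => p (t i))⁻¹)
  have hf : ∀ w, f w = crd (fun i => p (t i)) w k := fun w => rfl
  have hne : f ≠ 0 := by
    intro h0
    have h1 : crd (fun i => p (t i)) (p (t k)) = Pi.single k 1 := by
      apply crd_unique hdet
      rw [Finset.sum_eq_single k]
      · simp
      · intro i _ hi
        simp [hi]
      · intro h
        exact absurd (Finset.mem_univ k) h
    have h2 := hf (p (t k))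
    rw [h0, h1] at h2
    simp at h2
  refine (avoid_dual f hne 0 (ρ (H.gam v)) (H.orient _).ne').mono fun η hη => ?_
  rw [zero_add, hf] at hη
  exact hη

/-- the limit of the values of the cochain at a nondegenerate simplex -/
theorem lim_eval (H : IsProjTri n K R ρ p) {t : Fin (n + 1) → V}
    (hdet : (Matrix.of fun i => p (t i)).det ≠ 0) :
    Tendsto (fun η => FF n (fun i => p (t i)) (fun i => H.dir (t i) η)) (U : Filter ℝ)
      (𝓝 (H.coc t)) := by
  apply tendsto_of_WW_fst (n + 1)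
  refine (H.coc_lim t).congr' ?_
  show ∀ᶠ q in (WW (n + 1) : Filter (ℝ × (Fin (n + 1) → ℝ))), H.ff t q =
    FF n (fun i => p (t i)) (fun i => H.dir (t i) q.1)
  rw [WW_iff]
  have hgen : ∀ᶠ η in (U : Filter ℝ), ∀ i k : Fin (n + 1),
      crd (fun i => p (t i)) (H.dir (t i) η) k ≠ 0 := by
    rw [eventually_all]
    intro i
    rw [eventually_all]
    intro k
    exact H.generic_dir hdet (t i) k
  refine hgen.mono fun η hη => UU_le_nhds (n + 1) ?_
  have hv : Continuous fun (e : Fin (n + 1) → ℝ) (i : Fin (n + 1)) => H.pert (t i) (e i) :=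
    continuous_pi fun i => (H.continuous_pert (t i)).comp (continuous_apply i)
  have h0 : (fun i : Fin (n + 1) => H.pert (t i) ((0 : Fin (n + 1) → ℝ) i)) =
      fun i => p (t i) := by
    funext i
    rw [Pi.zero_apply, H.pert_zero]
  have h1 := FF_stable (n := n) (fun (e : Fin (n + 1) → ℝ) (i : Fin (n + 1)) => H.pert (t i) (e i))
    0 hv (fun i => H.dir (t i) η) (by
      show (Matrix.of fun i : Fin (n + 1) => H.pert (t i) ((0 : Fin (n + 1) → ℝ) i)).det ≠ 0
      rw [h0]; exact hdet) (by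
      intro i k _
      show crd (fun i : Fin (n + 1) => H.pert (t i) ((0 : Fin (n + 1) → ℝ) i)) _ k ≠ 0
      rw [h0]; exact hη i k)
  refine h1.mono fun e he => ?_
  show FF n (fun i => H.pert (t i) (e i)) (fun i => H.dir (t i) η) = _
  rw [he]
  show FF n (fun i : Fin (n + 1) => H.pert (t i) ((0 : Fin (n + 1) → ℝ) i)) _ = _
  rw [h0]

/-- the parameter `η` is generic -/
def Good (H : IsProjTri n K R ρ p) (η : ℝ) : Prop :=
  ∀ T ∈ K, T.card = n + 1 → ∀ v ∈ T, ∀ u ∈ T, H.cT T (H.dir v η) u ≠ 0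

theorem good_eventually (H : IsProjTri n K R ρ p) : ∀ᶠ η in (U : Filter ℝ), H.Good η := by
  classical
  have h1 : ∀ᶠ η in (U : Filter ℝ), ∀ T ∈ R, T.card = n + 1 → ∀ v ∈ T, ∀ u ∈ T,
      H.cT T (H.dir v η) u ≠ 0 := by
    rw [Filter.eventually_all_finset]
    intro T hT
    by_cases hc : T.card = n + 1
    · have h2 : ∀ᶠ η in (U : Filter ℝ), ∀ v ∈ T, ∀ u ∈ T, H.cT T (H.dir v η) u ≠ 0 := by
        rw [Filter.eventually_all_finset]
        intro v hv
        rw [Filter.eventually_all_finset]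
        intro u hu
        obtain ⟨t, ht⟩ := exists_ordering hc
        have hTK := H.sub T hT
        rw [← image_ordering hc.le ht] at hu
        obtain ⟨k, -, rfl⟩ := Finset.mem_image.1 hu
        refine (H.generic_dir (H.det_ordering hTK ht) v k).mono fun η hη => ?_
        rwa [H.crd_eq_cT hTK hc ht] at hη
      exact h2.mono fun η h _ => h
    · exact Eventually.of_forall fun η h => absurd h hc
  refine h1.mono fun η hη T hT hc v hv u hu => ?_
  have e1 := H.tr_gm_rp hT
  set g := H.gm T hT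
  set r := H.rp T hT
  have hrR : r ∈ R := H.rp_mem hT
  have hrc : r.card = n + 1 := by rw [← hc, ← e1, card_tr]
  have hv' : g⁻¹ • v ∈ r := by rw [← mem_tr, e1]; exact hv
  have hu' : g⁻¹ • u ∈ r := by rw [← mem_tr, e1]; exact hu
  have h2 := hη r hrR hrc _ hv' _ hu'
  have h3 := H.cT_smul (H.sub r hrR) hrc g (H.dir (g⁻¹ • v) η) (g⁻¹ • u) hu'
  rw [← H.dir_smul, smul_inv_smul, smul_inv_smul, e1] at h3
  rw [h3]
  exact h2

open Classical in
/-- exactly one top simplex that contains `S` lies in the given direction -/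
theorem count_one (H : IsProjTri n K R ρ p) {η : ℝ} (hη : H.Good η) {S : Finset V} (hS : S ∈ K)
    {v : V} (hv : v ∈ S) :
    ((H.topStar S).filter fun T => ∀ u ∈ T, u ∉ S → 0 < H.cT T (H.dir v η) u).card = 1 := by
  obtain ⟨t, ⟨htK, hSt, a, hpos, ha⟩, huni⟩ := H.fan S hS (H.dir v η)
  have htc : t.card = n + 1 := by
    by_contra hne
    obtain ⟨T, hTK, htT, hTc⟩ := H.exists_top htK
    obtain ⟨u, huT, hut⟩ : ∃ u, u ∈ T ∧ u ∉ t := by
      by_contra hall
      push Not at hall
      have := Finset.card_le_card (show T ⊆ t from hall)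
      have := H.card_le htK
      omega
    apply hη T hTK hTc v (htT (hSt hv)) u huT
    rw [H.cT_unique hTK hTc (a := fun x => if x ∈ t then a x else 0) _ u huT, if_neg hut]
    rw [← ha, ← Finset.sum_filter_add_sum_filter_not T (fun x => x ∈ t)]
    have h1 : T.filter (fun x => x ∈ t) = t := by
      ext x
      rw [Finset.mem_filter]
      exact ⟨fun h => h.2, fun h => ⟨htT h, h⟩⟩
    rw [h1]
    have h2 : ∑ x ∈ T.filter (fun x => ¬ x ∈ t), (if x ∈ t then a x else 0) • p x = 0 := by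
      refine Finset.sum_eq_zero fun x hx => ?_
      rw [if_neg (Finset.mem_filter.1 hx).2, zero_smul]
    rw [h2, add_zero]
    refine Finset.sum_congr rfl fun x hx => ?_
    rw [if_pos hx]
  have hne : S.Nonempty := ⟨v, hv⟩
  rw [Finset.card_eq_one]
  refine ⟨t, ?_⟩
  ext T
  rw [Finset.mem_filter, Finset.mem_singleton, H.mem_topStar hne]
  constructor
  · rintro ⟨⟨hTK, hST, hTc⟩, hTpos⟩
    exact huni T ⟨hTK, hST, _, hTpos, H.cT_spec hTK hTc _⟩
  · rintro rfl
    refine ⟨⟨htK, hSt, htc⟩, fun u hu huS => ?_⟩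
    rw [H.cT_unique htK htc ha u hu]
    exact hpos u hu huS

end IsProjTri

end MP8a95ee.CP
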