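import Pool.Agent.Work.MP_8a95ee_gt.CP.Coc

/-!
# Iterated limits and general position
-/

set_option autoImplicit false

namespace MP8a95ee.CP

open Matrix Filter Topology

/-- an ultrafilter which converges to `0` from the right -/
noncomputable def U : Ultrafilter ℝ := Ultrafilter.of (𝓝[>] (0 : ℝ))

theorem U_le : (U : Filter ℝ) ≤ 𝓝[>] (0 : ℝ) := Ultrafilter.of_le _

theorem U_le_nhds : (U : Filter ℝ) ≤ 𝓝 (0 : ℝ) := U_le.trans nhdsWithin_le_nhds

theorem U_le_cofinite : (U : Filter ℝ) ≤ cofinite :=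
  (U_le.trans (nhdsWithin_mono _ (fun x (hx : 0 < x) => ne_of_gt hx))).trans (nhdsNE_le_cofinite 0)

theorem U_pos : ∀ᶠ x in (U : Filter ℝ), 0 < x := U_le self_mem_nhdsWithin

/-- iterated ultrafilters -/
noncomputable def UU : (k : ℕ) → Ultrafilter (Fin k → ℝ)
  | 0 => pure (fun i => Fin.elim0 i)
  | k + 1 => Ultrafilter.bind U fun ε => Ultrafilter.map (fun e => (Fin.cons ε e : Fin (k + 1) → ℝ)) (UU k)

theorem UU_zero (P : (Fin 0 → ℝ) → Prop) :
    (∀ᶠ e in (UU 0 : Filter (Fin 0 → ℝ)), P e) ↔ P (fun i => Fin.elim0 i) := by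
  unfold UU
  rw [Ultrafilter.coe_pure, eventually_pure]

theorem UU_succ (k : ℕ) (P : (Fin (k + 1) → ℝ) → Prop) :
    (∀ᶠ e in (UU (k + 1) : Filter (Fin (k + 1) → ℝ)), P e) ↔
      ∀ᶠ ε in (U : Filter ℝ), ∀ᶠ e in (UU k : Filter (Fin k → ℝ)), P (Fin.cons ε e) := by
  show (∀ᶠ e in ((Ultrafilter.bind U fun ε => Ultrafilter.map
    (fun e => (Fin.cons ε e : Fin (k + 1) → ℝ)) (UU k) : Ultrafilter _) : Filter _), P e) ↔ _
  show (∀ᶠ e in (Filter.bind (U : Filter ℝ) fun ε => ((Ultrafilter.map
    (fun e => (Fin.cons ε e : Fin (k + 1) → ℝ)) (UU k) : Ultrafilter _) : Filter _)), P e) ↔ _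
  rw [eventually_bind]
  simp only [Ultrafilter.coe_map, eventually_map]

theorem UU_del (k : ℕ) : ∀ (j : Fin (k + 1)) (P : (Fin k → ℝ) → Prop),
    (∀ᶠ e in (UU (k + 1) : Filter (Fin (k + 1) → ℝ)), P (fun i => e (j.succAbove i))) ↔
      ∀ᶠ e in (UU k : Filter (Fin k → ℝ)), P e := by
  induction k with
  | zero =>
    intro j P
    rw [UU_succ, UU_zero]
    have h : ∀ (ε : ℝ) (e : Fin 0 → ℝ), (fun i : Fin 0 => (Fin.cons ε e : Fin 1 → ℝ) (j.succAbove i)) =
        fun i => Fin.elim0 i := fun _ _ => funext fun i => Fin.elim0 i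
    simp only [h]
    rw [eventually_const, eventually_const]
  | succ k ih =>
    intro j P
    rw [UU_succ]
    refine Fin.cases ?_ ?_ j
    · have h : ∀ (ε : ℝ) (e : Fin (k + 1) → ℝ), (fun i : Fin (k + 1) =>
          (Fin.cons ε e : Fin (k + 2) → ℝ) ((0 : Fin (k + 2)).succAbove i)) = e := by
        intro ε e
        funext i
        rw [Fin.succAbove_zero, Fin.cons_succ]
      simp only [h]
      rw [eventually_const]
    · intro j'
      have h : ∀ (ε : ℝ) (e : Fin (k + 1) → ℝ), (fun i : Fin (k + 1) =>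
          (Fin.cons ε e : Fin (k + 2) → ℝ) (j'.succ.succAbove i)) =
          Fin.cons ε (fun i : Fin k => e (j'.succAbove i)) := by
        intro ε e
        funext i
        refine Fin.cases ?_ ?_ i
        · rw [Fin.succ_succAbove_zero, Fin.cons_zero, Fin.cons_zero]
        · intro i'
          rw [Fin.succ_succAbove_succ, Fin.cons_succ, Fin.cons_succ]
      simp only [h]
      rw [UU_succ]
      have h2 : ∀ ε : ℝ, (∀ᶠ e in (UU (k + 1) : Filter (Fin (k + 1) → ℝ)),
          P (Fin.cons ε (fun i : Fin k => e (j'.succAbove i)))) ↔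
          ∀ᶠ e in (UU k : Filter (Fin k → ℝ)), P (Fin.cons ε e) := fun ε =>
        ih j' (fun e => P (Fin.cons ε e))
      simp only [h2]

theorem UU_le_nhds (k : ℕ) : (UU k : Filter (Fin k → ℝ)) ≤ 𝓝 (0 : Fin k → ℝ) := by
  induction k with
  | zero =>
    intro s hs
    have h : ∀ᶠ e in (UU 0 : Filter (Fin 0 → ℝ)), e ∈ s := by
      rw [UU_zero]
      have : (fun i => Fin.elim0 i : Fin 0 → ℝ) = 0 := funext fun i => Fin.elim0 i
      rw [this]
      exact mem_of_mem_nhds hs
    exact h
  | succ k ih =>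
    intro s hs
    have h : ∀ᶠ e in (UU (k + 1) : Filter (Fin (k + 1) → ℝ)), e ∈ s := by
      rw [UU_succ]
      have hc : Continuous fun q : ℝ × (Fin k → ℝ) => (Fin.cons q.1 q.2 : Fin (k + 1) → ℝ) := by
        refine continuous_pi fun i => ?_
        refine Fin.cases ?_ ?_ i
        · simpa using continuous_fst
        · intro i'
          simp only [Fin.cons_succ]
          exact (continuous_apply i').comp continuous_snd
      have h0 : (Fin.cons (0 : ℝ) (0 : Fin k → ℝ) : Fin (k + 1) → ℝ) = 0 := by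
        funext i
        refine Fin.cases ?_ ?_ i
        · rfl
        · intro i'; rfl
      have h1 : ∀ᶠ q in 𝓝 ((0, 0) : ℝ × (Fin k → ℝ)), (Fin.cons q.1 q.2 : Fin (k + 1) → ℝ) ∈ s := by
        have := hc.tendsto (0, 0)
        simp only [h0] at this
        exact this hs
      have h2 := h1.curry_nhds
      have h3 : ∀ᶠ ε in (U : Filter ℝ), ∀ᶠ e in 𝓝 (0 : Fin k → ℝ),
          (Fin.cons ε e : Fin (k + 1) → ℝ) ∈ s := U_le_nhds h2
      exact h3.mono fun ε hε => ih hε
    exact h

/-- the ultrafilter for the parameters `(η, e)`, `η` first -/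
noncomputable def WW (k : ℕ) : Ultrafilter (ℝ × (Fin k → ℝ)) :=
  Ultrafilter.bind U fun η => Ultrafilter.map (fun e => (η, e)) (UU k)

theorem WW_iff (k : ℕ) (P : ℝ × (Fin k → ℝ) → Prop) :
    (∀ᶠ q in (WW k : Filter (ℝ × (Fin k → ℝ))), P q) ↔
      ∀ᶠ η in (U : Filter ℝ), ∀ᶠ e in (UU k : Filter (Fin k → ℝ)), P (η, e) := by
  show (∀ᶠ e in (Filter.bind (U : Filter ℝ) fun η => ((Ultrafilter.map
    (fun e => (η, e)) (UU k) : Ultrafilter _) : Filter _)), P e) ↔ _
  rw [eventually_bind]
  simp only [Ultrafilter.coe_map, eventually_map]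

theorem WW_del (k : ℕ) (j : Fin (k + 1)) :
    Tendsto (fun q : ℝ × (Fin (k + 1) → ℝ) => (q.1, fun i => q.2 (j.succAbove i)))
      (WW (k + 1) : Filter _) (WW k : Filter (ℝ × (Fin k → ℝ))) := by
  intro s hs
  have h1 : ∀ᶠ q in (WW k : Filter (ℝ × (Fin k → ℝ))), q ∈ s := hs
  have h2 : ∀ᶠ q in (WW (k + 1) : Filter (ℝ × (Fin (k + 1) → ℝ))),
      ((q.1, fun i => q.2 (j.succAbove i)) : ℝ × (Fin k → ℝ)) ∈ s := by
    rw [WW_iff] at h1 ⊢
    refine h1.mono fun η hη => ?_
    exact (UU_del k j (fun e => (η, e) ∈ s)).2 hη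
  exact h2

theorem WW_fst (k : ℕ) : Tendsto Prod.fst (WW k : Filter (ℝ × (Fin k → ℝ))) (U : Filter ℝ) := by
  intro s hs
  have h2 : ∀ᶠ q in (WW k : Filter (ℝ × (Fin k → ℝ))), q.1 ∈ s := by
    rw [WW_iff]
    refine Filter.Eventually.mono hs fun η hη => ?_
    exact Eventually.of_forall fun _ => hη
  exact h2

theorem tendsto_of_WW_fst (k : ℕ) {f : ℝ → ℝ} {c : ℝ}
    (h : Tendsto (fun q : ℝ × (Fin k → ℝ) => f q.1) (WW k : Filter _) (𝓝 c)) :
    Tendsto f (U : Filter ℝ) (𝓝 c) := by
  intro s hs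
  have h1 : ∀ᶠ q in (WW k : Filter (ℝ × (Fin k → ℝ))), f q.1 ∈ s := h hs
  rw [WW_iff] at h1
  have h2 : ∀ᶠ η in (U : Filter ℝ), f η ∈ s := by
    refine h1.mono fun η hη => ?_
    exact (eventually_const.1 hη)
  exact h2

/-! ### General position -/

/-- the moment curve -/
noncomputable def mc (n : ℕ) (ε : ℝ) : Fin (n + 1) → ℝ := fun k => ε ^ ((k : ℕ) + 1)

theorem continuous_mc (n : ℕ) : Continuous (mc n) :=
  continuous_pi fun _ => continuous_pow _

theorem mc_zero (n : ℕ) : mc n 0 = 0 := by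
  funext k
  simp [mc]

/-- the moment curve leaves every hyperplane -/
theorem avoid_dual {n : ℕ} (f : (Fin (n + 1) → ℝ) →ₗ[ℝ] ℝ) (hf : f ≠ 0)
    (p0 : Fin (n + 1) → ℝ) (A : Matrix (Fin (n + 1)) (Fin (n + 1)) ℝ) (hA : A.det ≠ 0) :
    ∀ᶠ ε in (U : Filter ℝ), f (p0 + A *ᵥ mc n ε) ≠ 0 := by
  set b : Fin (n + 1) → ℝ := fun k => f (A *ᵥ Pi.single k 1) with hb
  have hsum : ∀ x : Fin (n + 1) → ℝ, f (A *ᵥ x) = ∑ k, b k * x k := by
    intro x
    have hx : x = ∑ k, x k • (Pi.single k (1 : ℝ) : Fin (n + 1) → ℝ) := by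
      funext i
      simp [Finset.sum_apply, Pi.single_apply]
    conv_lhs => rw [hx]
    rw [Matrix.mulVec_sum, map_sum]
    refine Finset.sum_congr rfl fun k _ => ?_
    rw [Matrix.mulVec_smul, map_smul, smul_eq_mul, mul_comm]
  have hb0 : ∃ k, b k ≠ 0 := by
    by_contra hall
    push Not at hall
    apply hf
    refine LinearMap.ext fun x => ?_
    have h1 : A *ᵥ (A⁻¹ *ᵥ x) = x := by
      rw [Matrix.mulVec_mulVec, Matrix.mul_nonsing_inv _ (isUnit_iff_ne_zero.2 hA),
        Matrix.one_mulVec]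
    rw [← h1, hsum]
    simp [hall]
  obtain ⟨k0, hk0⟩ := hb0
  set Q : Polynomial ℝ := Polynomial.C (f p0) +
    ∑ k : Fin (n + 1), Polynomial.C (b k) * Polynomial.X ^ ((k : ℕ) + 1) with hQ
  have hQ0 : Q ≠ 0 := by
    intro h0
    apply hk0
    have h1 : Q.coeff ((k0 : ℕ) + 1) = b k0 := by
      rw [hQ, Polynomial.coeff_add, Polynomial.coeff_C_succ, zero_add, Polynomial.finsetSum_coeff,
        Finset.sum_eq_single k0]
      · rw [Polynomial.coeff_C_mul, Polynomial.coeff_X_pow, if_pos rfl, mul_one]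
      · intro k _ hk
        rw [Polynomial.coeff_C_mul, Polynomial.coeff_X_pow, if_neg, mul_zero]
        intro h
        apply hk
        apply Fin.ext
        omega
      · intro h
        exact absurd (Finset.mem_univ k0) h
    rw [← h1, h0, Polynomial.coeff_zero]
  have heval : ∀ ε : ℝ, f (p0 + A *ᵥ mc n ε) = Q.eval ε := by
    intro ε
    rw [map_add, hsum, hQ, Polynomial.eval_add, Polynomial.eval_C, Polynomial.eval_finsetSum]
    congr 1
    refine Finset.sum_congr rfl fun k _ => ?_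
    rw [Polynomial.eval_mul, Polynomial.eval_C, Polynomial.eval_pow, Polynomial.eval_X]
    rfl
  have hfin : (Q.roots.toFinset : Set ℝ).Finite := Finset.finite_toSet _
  have h1 : ∀ᶠ ε in cofinite, ε ∉ (Q.roots.toFinset : Set ℝ) := hfin.compl_mem_cofinite
  have h2 : ∀ᶠ ε in (U : Filter ℝ), ε ∉ (Q.roots.toFinset : Set ℝ) := U_le_cofinite h1
  refine h2.mono fun ε hε h0 => hε ?_
  rw [Finset.mem_coe, Multiset.mem_toFinset, Polynomial.mem_roots hQ0, Polynomial.IsRoot.def,
    ← heval, h0]

/-- the moment curve leaves every proper subspace -/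
theorem avoid {n : ℕ} (W : Submodule ℝ (Fin (n + 1) → ℝ)) (hW : W ≠ ⊤)
    (p0 : Fin (n + 1) → ℝ) (A : Matrix (Fin (n + 1)) (Fin (n + 1)) ℝ) (hA : A.det ≠ 0) :
    ∀ᶠ ε in (U : Filter ℝ), p0 + A *ᵥ mc n ε ∉ W := by
  obtain ⟨f, hf, hle⟩ := Submodule.exists_le_ker_of_lt_top W (lt_top_iff_ne_top.2 hW)
  refine (avoid_dual f hf p0 A hA).mono fun ε hε hmem => hε ?_
  exact hle hmem

open Module in
/-- general position of the perturbed vectors -/
theorem general_position {n : ℕ} : ∀ (k : ℕ) (p0 : Fin k → Fin (n + 1) → ℝ)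
    (A : Fin k → Matrix (Fin (n + 1)) (Fin (n + 1)) ℝ) (_ : ∀ i, (A i).det ≠ 0)
    (W : Submodule ℝ (Fin (n + 1) → ℝ)),
    ∀ᶠ e in (UU k : Filter (Fin k → ℝ)), ∀ S : Finset (Fin k), S.card + finrank ℝ W ≤ n + 1 →
      finrank ℝ (W ⊔ Submodule.span ℝ ((fun i => p0 i + A i *ᵥ mc n (e i)) '' (S : Set (Fin k))) :
        Submodule ℝ (Fin (n + 1) → ℝ)) = S.card + finrank ℝ W := by
  intro k
  induction k with
  | zero =>
    intro p0 A hA W
    rw [UU_zero]
    intro S _
    have : S = ∅ := Finset.eq_empty_of_isEmpty S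
    subst this
    rw [Finset.coe_empty, Set.image_empty, Submodule.span_empty, sup_bot_eq, Finset.card_empty,
      zero_add]
  | succ k ih =>
    intro p0 A hA W
    rw [UU_succ]
    -- the tail
    have htail := ih (fun i => p0 i.succ) (fun i => A i.succ) (fun i => hA i.succ)
    have h1 : ∀ᶠ ε in (U : Filter ℝ), W ≠ ⊤ → p0 0 + A 0 *ᵥ mc n ε ∉ W := by
      by_cases hW : W = ⊤
      · exact Eventually.of_forall fun ε h => absurd hW h
      · exact (avoid W hW (p0 0) (A 0) (hA 0)).mono fun ε h _ => h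
    refine h1.mono fun ε hε => ?_
    set x := p0 0 + A 0 *ᵥ mc n ε with hx
    refine ((htail W).and (htail (W ⊔ Submodule.span ℝ {x}))).mono fun e he S hS => ?_
    set S' : Finset (Fin k) := Finset.univ.filter fun i => i.succ ∈ S with hS'
    have himg : ∀ i : Fin k, (fun i : Fin (k + 1) => p0 i + A i *ᵥ mc n ((Fin.cons ε e : Fin (k + 1) → ℝ) i)) i.succ =
        p0 i.succ + A i.succ *ᵥ mc n (e i) := by
      intro i
      simp only [Fin.cons_succ]
    by_cases h0 : (0 : Fin (k + 1)) ∈ S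
    · have hSeq : S = insert 0 (S'.map (Fin.succEmb k)) := by
        ext i
        refine Fin.cases ?_ ?_ i
        · simp [h0]
        · intro i'
          simp [hS', Fin.succ_ne_zero]
      have hcard : S.card = S'.card + 1 := by
        rw [hSeq, Finset.card_insert_of_notMem, Finset.card_map]
        simp [Fin.succ_ne_zero]
      have hWtop : W ≠ ⊤ := by
        rintro rfl
        rw [finrank_top, finrank_fin_fun, hcard] at hS
        omega
      have hxW := hε hWtop
      have hfr : finrank ℝ (W ⊔ Submodule.span ℝ {x} : Submodule ℝ (Fin (n + 1) → ℝ)) =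
          finrank ℝ W + 1 := by
        have hx0 : x ≠ 0 := by
          intro h
          rw [h] at hxW
          exact hxW W.zero_mem
        have hinf : W ⊓ Submodule.span ℝ {x} = ⊥ := by
          rw [eq_bot_iff]
          intro y hy
          obtain ⟨hy1, hy2⟩ := Submodule.mem_inf.1 hy
          obtain ⟨c, rfl⟩ := Submodule.mem_span_singleton.1 hy2
          by_cases hc : c = 0
          · rw [hc, zero_smul]
            exact Submodule.zero_mem _
          · exact absurd ((Submodule.smul_mem_iff W hc).1 hy1) hxW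
        have := Submodule.finrank_sup_add_finrank_inf_eq W (Submodule.span ℝ {x})
        rw [hinf, finrank_bot, add_zero, finrank_span_singleton hx0] at this
        exact this
      have himg2 : ((fun i => p0 i + A i *ᵥ mc n ((Fin.cons ε e : Fin (k + 1) → ℝ) i)) ''
          (S : Set (Fin (k + 1)))) =
          {x} ∪ ((fun i : Fin k => p0 i.succ + A i.succ *ᵥ mc n (e i)) '' (S' : Set (Fin k))) := by
        ext y
        constructor
        · rintro ⟨i, hi, rfl⟩
          revert hi
          refine Fin.cases ?_ ?_ i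
          · intro _
            left
            simp [hx]
          · intro i' hi'
            right
            refine ⟨i', ?_, ?_⟩
            · simpa [hS'] using hi'
            · simp
        · rintro (hy | ⟨i', hi', rfl⟩)
          · refine ⟨0, h0, ?_⟩
            rw [Set.mem_singleton_iff.1 hy]
            simp [hx]
          · refine ⟨i'.succ, ?_, ?_⟩
            · simpa [hS'] using hi'
            · simp
      rw [himg2, Submodule.span_union, ← sup_assoc, he.2 S' (by rw [hfr]; omega), hfr, hcard]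
      ring
    · have hSeq : S = S'.map (Fin.succEmb k) := by
        ext i
        refine Fin.cases ?_ ?_ i
        · simp [h0, Fin.succ_ne_zero]
        · intro i'
          simp [hS']
      have hcard : S.card = S'.card := by
        rw [hSeq, Finset.card_map]
      have himg2 : ((fun i => p0 i + A i *ᵥ mc n ((Fin.cons ε e : Fin (k + 1) → ℝ) i)) ''
          (S : Set (Fin (k + 1)))) =
          ((fun i : Fin k => p0 i.succ + A i.succ *ᵥ mc n (e i)) '' (S' : Set (Fin k))) := by
        ext y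
        constructor
        · rintro ⟨i, hi, rfl⟩
          revert hi
          refine Fin.cases ?_ ?_ i
          · intro h
            exact absurd h h0
          · intro i' hi'
            refine ⟨i', ?_, ?_⟩
            · simpa [hS'] using hi'
            · simp
        · rintro ⟨i', hi', rfl⟩
          refine ⟨i'.succ, ?_, ?_⟩
          · simpa [hS'] using hi'
          · simp
      rw [himg2, he.1 S' (by omega), hcard]

end MP8a95ee.CP
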