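import Pool.Agent.Work.MP_8a95ee_gt.CP.Defs
import Pool.Agent.Work.MP_8a95ee_gt.CP.Gen

/-!
# Straight triangulations: basic facts
-/

set_option autoImplicit false

namespace MP8a95ee.CP

open Matrix Filter Topology

variable {V G : Type} [Group G] [MulAction G V]

theorem mem_tr {g : G} {s : Finset V} {v : V} : v ∈ tr g s ↔ g⁻¹ • v ∈ s := by
  classical
  unfold tr
  rw [Finset.mem_image]
  constructor
  · rintro ⟨u, hu, rfl⟩
    rwa [inv_smul_smul]
  · intro h
    exact ⟨_, h, smul_inv_smul g v⟩

theorem smul_mem_tr {g : G} {s : Finset V} {v : V} : g • v ∈ tr g s ↔ v ∈ s := by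
  rw [mem_tr, inv_smul_smul]

theorem tr_one (s : Finset V) : tr (1 : G) s = s := by
  ext v; rw [mem_tr, inv_one, one_smul]

theorem tr_mul (g h : G) (s : Finset V) : tr (g * h) s = tr g (tr h s) := by
  ext v; rw [mem_tr, mem_tr, mem_tr, _root_.mul_inv_rev, mul_smul]

theorem tr_inv_tr (g : G) (s : Finset V) : tr g⁻¹ (tr g s) = s := by
  rw [← tr_mul, inv_mul_cancel, tr_one]

theorem tr_tr_inv (g : G) (s : Finset V) : tr g (tr g⁻¹ s) = s := by
  rw [← tr_mul, mul_inv_cancel, tr_one]

theorem card_tr (g : G) (s : Finset V) : (tr g s).card = s.card := by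
  classical
  unfold tr
  rw [Finset.card_image_of_injective]
  exact MulAction.injective g

theorem tr_subset {g : G} {s t : Finset V} : tr g s ⊆ tr g t ↔ s ⊆ t := by
  constructor
  · intro h v hv
    exact smul_mem_tr.1 (h (smul_mem_tr.2 hv))
  · intro h v hv
    rw [mem_tr] at hv ⊢
    exact h hv

theorem tr_singleton (g : G) (v : V) : tr g {v} = {g • v} := by
  ext u
  rw [mem_tr, Finset.mem_singleton, Finset.mem_singleton, inv_smul_eq_iff]

theorem sum_tr {M : Type} [AddCommMonoid M] (g : G) (s : Finset V) (f : V → M) :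
    ∑ v ∈ tr g s, f v = ∑ v ∈ s, f (g • v) := by
  classical
  unfold tr
  rw [Finset.sum_image]
  intro a _ b _ h
  exact MulAction.injective g h

namespace IsProjTri

variable {n : ℕ} {K : Set (Finset V)} {R : Finset (Finset V)}
  {ρ : G →* Matrix (Fin (n + 1)) (Fin (n + 1)) ℝ} {p : V → Fin (n + 1) → ℝ}

theorem p_ne (H : IsProjTri n K R ρ p) (v : V) : p v ≠ 0 := by
  intro h
  obtain ⟨l, hl⟩ := H.chart
  have := hl v
  rw [h] at this
  simp at this

theorem indep (H : IsProjTri n K R ρ p) {t : Finset V} (ht : t ∈ K) {b : V → ℝ}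
    (hb : ∑ v ∈ t, b v • p v = 0) : ∀ v ∈ t, b v = 0 := by
  classical
  intro v0 hv0
  by_contra hne
  by_cases hs : (t.erase v0).Nonempty
  · have hsK := H.down t ht (t.erase v0) (Finset.erase_subset _ _) hs
    obtain ⟨t', -, huni⟩ := H.fan (t.erase v0) hsK (p v0)
    have h1 : t.erase v0 = t' := by
      apply huni
      refine ⟨hsK, Finset.Subset.refl _, fun v => - b v / b v0, fun v h1 h2 => absurd h1 h2, ?_⟩
      have h2 : ∑ v ∈ t.erase v0, b v • p v = - (b v0 • p v0) := by
        rw [← Finset.add_sum_erase t _ hv0] at hb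
        exact eq_neg_of_add_eq_zero_right hb
      have h3 : ∀ v, (- b v / b v0) • p v = (-(1 / b v0)) • (b v • p v) := by
        intro v
        rw [smul_smul]
        congr 1
        ring
      simp only [h3]
      rw [← Finset.smul_sum, h2, smul_neg, smul_smul, ← neg_smul]
      have : -(-(1 / b v0) * b v0) = 1 := by field_simp
      rw [this, one_smul]
    have h2 : t = t' := by
      apply huni
      refine ⟨ht, Finset.erase_subset _ _, fun v => if v = v0 then 1 else 0, ?_, ?_⟩
      · intro v hv hv'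
        have : v = v0 := by
          by_contra h
          exact hv' (Finset.mem_erase.2 ⟨h, hv⟩)
        simp [this]
      · simp [ite_smul, hv0]
    rw [← h2] at h1
    exact absurd hv0 (by rw [← h1]; exact Finset.notMem_erase v0 t)
  · rw [Finset.not_nonempty_iff_eq_empty] at hs
    rw [← Finset.add_sum_erase t _ hv0, hs, Finset.sum_empty, add_zero] at hb
    rcases smul_eq_zero.1 hb with h | h
    · exact hne h
    · exact H.p_ne v0 h

theorem linIndep (H : IsProjTri n K R ρ p) {t : Finset V} (ht : t ∈ K) :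
    LinearIndependent ℝ (fun v : t => p v) := by
  classical
  rw [Fintype.linearIndependent_iff]
  intro g hg v
  have h1 : ∑ u ∈ t, (if h : u ∈ t then g ⟨u, h⟩ else 0) • p u = 0 := by
    rw [← Finset.sum_attach, ← hg]
    refine Finset.sum_congr rfl fun u _ => ?_
    rw [dif_pos u.2]
  have h2 := H.indep ht h1 v v.2
  rw [dif_pos v.2] at h2
  exact h2

theorem card_le (H : IsProjTri n K R ρ p) {t : Finset V} (ht : t ∈ K) : t.card ≤ n + 1 := by
  have h := (H.linIndep ht).fintype_card_le_finrank
  rwa [Fintype.card_coe, Module.finrank_fin_fun] at h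

theorem det_ne (H : IsProjTri n K R ρ p) {t : Fin (n + 1) → V} (hinj : Function.Injective t)
    {s : Finset V} (hs : s ∈ K) (hts : ∀ i, t i ∈ s) : (Matrix.of fun i => p (t i)).det ≠ 0 := by
  classical
  intro h0
  obtain ⟨x, hx, hx0⟩ := Matrix.exists_vecMul_eq_zero_iff.2 h0
  rw [vecMul_eq_sum] at hx0
  apply hx
  funext k
  have himg : Finset.univ.image t ∈ K := by
    refine H.down s hs _ ?_ ⟨t 0, Finset.mem_image_of_mem t (Finset.mem_univ 0)⟩
    intro v hv
    obtain ⟨i, -, rfl⟩ := Finset.mem_image.1 hv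
    exact hts i
  have h1 : ∑ v ∈ Finset.univ.image t, (x (Function.invFun t v)) • p v = 0 := by
    rw [Finset.sum_image (fun a _ b _ h => hinj h), ← hx0]
    refine Finset.sum_congr rfl fun i _ => ?_
    rw [Function.leftInverse_invFun hinj i]
  have h2 := H.indep himg h1 (t k) (Finset.mem_image_of_mem t (Finset.mem_univ k))
  rw [Function.leftInverse_invFun hinj k] at h2
  exact h2

/-- the group element of a simplex -/
noncomputable def gm (H : IsProjTri n K R ρ p) (s : Finset V) (hs : s ∈ K) : G :=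
  (H.rep s hs).choose.1

/-- the representative of a simplex -/
noncomputable def rp (H : IsProjTri n K R ρ p) (s : Finset V) (hs : s ∈ K) : Finset V :=
  (H.rep s hs).choose.2

theorem rp_mem (H : IsProjTri n K R ρ p) {s : Finset V} (hs : s ∈ K) : H.rp s hs ∈ R :=
  (H.rep s hs).choose_spec.1.1

theorem tr_gm_rp (H : IsProjTri n K R ρ p) {s : Finset V} (hs : s ∈ K) :
    tr (H.gm s hs) (H.rp s hs) = s :=
  (H.rep s hs).choose_spec.1.2

theorem gm_rp_unique (H : IsProjTri n K R ρ p) {s : Finset V} (hs : s ∈ K) {g : G} {r : Finset V}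
    (hr : r ∈ R) (h : tr g r = s) : g = H.gm s hs ∧ r = H.rp s hs := by
  have := (H.rep s hs).choose_spec.2 (g, r) ⟨hr, h⟩
  exact ⟨congrArg Prod.fst this, congrArg Prod.snd this⟩

theorem gm_of_mem (H : IsProjTri n K R ρ p) {r : Finset V} (hr : r ∈ R) :
    H.gm r (H.sub r hr) = 1 ∧ H.rp r (H.sub r hr) = r := by
  obtain ⟨h1, h2⟩ := H.gm_rp_unique (H.sub r hr) hr (tr_one r)
  exact ⟨h1.symm, h2.symm⟩

theorem gm_tr (H : IsProjTri n K R ρ p) {s : Finset V} (hs : s ∈ K) (g : G) :
    H.gm (tr g s) (H.inv g s hs) = g * H.gm s hs ∧ H.rp (tr g s) (H.inv g s hs) = H.rp s hs := by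
  have h := H.gm_rp_unique (H.inv g s hs) (g := g * H.gm s hs) (H.rp_mem hs)
    (by rw [tr_mul, H.tr_gm_rp hs])
  exact ⟨h.1.symm, h.2.symm⟩

/-- the action on the simplices is free -/
theorem free (H : IsProjTri n K R ρ p) {s : Finset V} (hs : s ∈ K) {g : G} (h : tr g s = s) :
    g = 1 := by
  have h1 := (H.gm_rp_unique hs (H.rp_mem hs) (g := g * H.gm s hs)
    (by rw [tr_mul, H.tr_gm_rp hs, h])).1
  exact mul_eq_right.1 h1

/-- the equivariant map to the group -/
noncomputable def gam (H : IsProjTri n K R ρ p) (v : V) : G := H.gm {v} (H.vert v)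

theorem gam_smul (H : IsProjTri n K R ρ p) (g : G) (v : V) : H.gam (g • v) = g * H.gam v := by
  unfold gam
  have h := (H.gm_tr (H.vert v) g).1
  rw [← h]
  congr 1

/-- all simplices with the vertex `v` are found in a finite set -/
theorem star_finite (H : IsProjTri n K R ρ p) (v : V) : {t | t ∈ K ∧ v ∈ t}.Finite := by
  classical
  have hfin : ((R ×ˢ (R.biUnion id)).image fun q : Finset V × V =>
      tr (H.gam v * (H.gam q.2)⁻¹) q.1 : Set (Finset V)).Finite := Finset.finite_toSet _
  refine hfin.subset ?_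
  rintro t ⟨ht, hv⟩
  rw [Finset.mem_coe, Finset.mem_image]
  set g := H.gm t ht with hg
  have h1 : g⁻¹ • v ∈ H.rp t ht := by
    rw [← mem_tr, H.tr_gm_rp ht]
    exact hv
  refine ⟨(H.rp t ht, g⁻¹ • v), ?_, ?_⟩
  · rw [Finset.mem_product]
    exact ⟨H.rp_mem ht, Finset.mem_biUnion.2 ⟨_, H.rp_mem ht, h1⟩⟩
  · show tr (H.gam v * (H.gam (g⁻¹ • v))⁻¹) (H.rp t ht) = t
    rw [H.gam_smul, _root_.mul_inv_rev, inv_inv, ← mul_assoc, mul_inv_cancel, one_mul, H.tr_gm_rp ht]

/-- the finite set of the simplices with `n + 1` vertices which contain `s` -/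
noncomputable def topStar (_ : IsProjTri n K R ρ p) (s : Finset V) : Finset (Finset V) :=
  open Classical in
  if h : {t | t ∈ K ∧ s ⊆ t ∧ t.card = n + 1}.Finite then h.toFinset else ∅

theorem mem_topStar (H : IsProjTri n K R ρ p) {s : Finset V} (hs : s.Nonempty) {t : Finset V} :
    t ∈ H.topStar s ↔ t ∈ K ∧ s ⊆ t ∧ t.card = n + 1 := by
  have hfin : {t | t ∈ K ∧ s ⊆ t ∧ t.card = n + 1}.Finite := by
    obtain ⟨v, hv⟩ := hs
    exact (H.star_finite v).subset fun t ht => ⟨ht.1, ht.2.1 hv⟩
  unfold topStar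
  rw [dif_pos hfin, Set.Finite.mem_toFinset]
  rfl

/-- every simplex lies in a simplex with `n + 1` vertices -/
theorem exists_top (H : IsProjTri n K R ρ p) {s : Finset V} (hs : s ∈ K) :
    ∃ t ∈ K, s ⊆ t ∧ t.card = n + 1 := by
  classical
  obtain ⟨d, hd⟩ : ∃ d, n + 1 - s.card = d := ⟨_, rfl⟩
  induction d using Nat.strong_induction_on generalizing s with
  | _ d ih =>
    by_cases hc : s.card = n + 1
    · exact ⟨s, hs, Finset.Subset.refl _, hc⟩
    · have hlt : s.card < n + 1 := lt_of_le_of_ne (H.card_le hs) hc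
      have hspan : Submodule.span ℝ (p '' (s : Set V)) ≠ ⊤ := by
        intro htop
        have h1 := finrank_span_finset_le_card (R := ℝ) (s.image p)
        rw [Finset.coe_image] at h1
        unfold Set.finrank at h1
        rw [htop, finrank_top, Module.finrank_fin_fun] at h1
        have := Finset.card_image_le (s := s) (f := p)
        omega
      obtain ⟨w, hw⟩ : ∃ w, w ∉ Submodule.span ℝ (p '' (s : Set V)) := by
        by_contra hall
        push Not at hall
        exact hspan ((Submodule.eq_top_iff').2 hall)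
      obtain ⟨t, ⟨htK, hst, a, -, ha⟩, -⟩ := H.fan s hs w
      have hne : s ≠ t := by
        rintro rfl
        apply hw
        rw [← ha]
        exact Submodule.sum_mem _ fun v hv => Submodule.smul_mem _ _
          (Submodule.subset_span ⟨v, hv, rfl⟩)
      have hcard : s.card < t.card := Finset.card_lt_card (lt_of_le_of_ne hst hne)
      have htc := H.card_le htK
      obtain ⟨t', ht'K, htt', ht'c⟩ := ih (n + 1 - t.card) (by omega) htK rfl
      exact ⟨t', ht'K, hst.trans htt', ht'c⟩

end IsProjTri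

end MP8a95ee.CP
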