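import Pool.Agent.Work.MP_8a95ee_gt.CP.Fan

/-!
# The invariant bounded cocycle on tuples of vertices
-/

set_option autoImplicit false

namespace MP8a95ee.CP

open Matrix Filter Topology

variable {V G : Type} [Group G] [MulAction G V]

/-! ### Transformation by a matrix -/

theorem crd_mulVec {n : ℕ} {v : Fin (n + 1) → Fin (n + 1) → ℝ} (hv : (Matrix.of v).det ≠ 0)
    {A : Matrix (Fin (n + 1)) (Fin (n + 1)) ℝ} (hA : A.det ≠ 0) (w : Fin (n + 1) → ℝ) :
    crd (fun i => A *ᵥ v i) (A *ᵥ w) = crd v w := by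
  have h1 : (Matrix.of fun i => A *ᵥ v i) = Matrix.of v * Aᵀ := by
    ext i j
    simp [Matrix.mul_apply, Matrix.mulVec, dotProduct, mul_comm]
  apply crd_unique
  · rw [h1, Matrix.det_mul, Matrix.det_transpose]
    exact mul_ne_zero hv hA
  · have h2 := congrArg (fun x => A *ᵥ x) (crd_spec hv w)
    simp only [Matrix.mulVec_sum, Matrix.mulVec_smul] at h2
    exact h2

theorem FF_mulVec {n : ℕ} {v : Fin (n + 1) → Fin (n + 1) → ℝ}
    {A : Matrix (Fin (n + 1)) (Fin (n + 1)) ℝ} (hA : 0 < A.det) (w : Fin (n + 1) → Fin (n + 1) → ℝ) :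
    FF n (fun i => A *ᵥ v i) (fun i => A *ᵥ w i) = FF n v w := by
  have h1 : (Matrix.of fun i => A *ᵥ v i) = Matrix.of v * Aᵀ := by
    ext i j
    simp [Matrix.mul_apply, Matrix.mulVec, dotProduct, mul_comm]
  by_cases hv : (Matrix.of v).det = 0
  · unfold FF
    rw [h1, Matrix.det_mul, hv, zero_mul]
    unfold sgn
    simp
  · unfold FF
    rw [h1, Matrix.det_mul, Matrix.det_transpose, sgn_mul, sgn_pos hA, mul_one]
    congr 1
    refine Finset.sum_congr rfl fun i _ => ?_
    rw [crd_mulVec hv hA.ne']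

/-! ### Stability under small perturbations -/

theorem sgn_eventually {X : Type} [TopologicalSpace X] {f : X → ℝ} {x : X} (hf : ContinuousAt f x)
    (h : f x ≠ 0) : ∀ᶠ y in 𝓝 x, sgn (f y) = sgn (f x) := by
  rcases lt_or_gt_of_ne h with h | h
  · filter_upwards [hf.eventually_lt_const h] with y hy
    rw [sgn_neg hy, sgn_neg h]
  · filter_upwards [hf.eventually_const_lt h] with y hy
    rw [sgn_pos hy, sgn_pos h]

theorem pos_eventually {X : Type} [TopologicalSpace X] {f : X → ℝ} {x : X} (hf : ContinuousAt f x)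
    (h : f x ≠ 0) : ∀ᶠ y in 𝓝 x, (0 < f y ↔ 0 < f x) := by
  rcases lt_or_gt_of_ne h with h | h
  · filter_upwards [hf.eventually_lt_const h] with y hy
    exact ⟨fun h' => absurd h' (not_lt.2 hy.le), fun h' => absurd h' (not_lt.2 h.le)⟩
  · filter_upwards [hf.eventually_const_lt h] with y hy
    exact ⟨fun _ => h, fun _ => hy⟩

theorem FF_stable {X : Type} [TopologicalSpace X] {n : ℕ} (v : X → Fin (n + 1) → Fin (n + 1) → ℝ)
    (x : X) (hv : Continuous v) (w : Fin (n + 1) → Fin (n + 1) → ℝ)
    (hdet : (Matrix.of (v x)).det ≠ 0) (hgen : ∀ i k, k ≠ i → crd (v x) (w i) k ≠ 0) :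
    ∀ᶠ y in 𝓝 x, FF n (v y) w = FF n (v x) w := by
  have hM : Continuous fun y => Matrix.of (v y) := hv
  have hd : ContinuousAt (fun y => (Matrix.of (v y)).det) x := (hM.matrix_det).continuousAt
  have hcrd : ∀ i k, ContinuousAt (fun y => crd (v y) (w i) k) x := by
    intro i k
    have h1 : ∀ y, crd (v y) (w i) k = (Matrix.of (v y)).det⁻¹ *
        (w i ᵥ* (Matrix.of (v y)).adjugate) k := by
      intro y
      unfold crd
      rw [Matrix.inv_def, Ring.inverse_eq_inv', Matrix.vecMul_smul, Pi.smul_apply, smul_eq_mul]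
    simp only [h1]
    refine ContinuousAt.mul (hd.inv₀ hdet) ?_
    have h2 : Continuous fun y => (w i ᵥ* (Matrix.of (v y)).adjugate) :=
      Continuous.matrix_vecMul continuous_const hM.matrix_adjugate
    exact ((continuous_apply k).comp h2).continuousAt
  have h1 := sgn_eventually hd hdet
  have h2 : ∀ᶠ y in 𝓝 x, ∀ i k, k ≠ i → (0 < crd (v y) (w i) k ↔ 0 < crd (v x) (w i) k) := by
    rw [eventually_all]
    intro i
    rw [eventually_all]
    intro k
    by_cases hk : k = i
    · exact Eventually.of_forall fun y h => absurd hk h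
    · exact (pos_eventually (hcrd i k) (hgen i k hk)).mono fun y h _ => h
  filter_upwards [h1, h2] with y hy1 hy2
  unfold FF
  rw [hy1]
  congr 1
  refine Finset.sum_congr rfl fun i _ => ?_
  unfold Qn
  congr 2
  ext k
  simp only [Finset.mem_filter, Finset.mem_univ, true_and]
  constructor
  · rintro ⟨h3, h4⟩
    exact ⟨h3, (hy2 i k h3).1 h4⟩
  · rintro ⟨h3, h4⟩
    exact ⟨h3, (hy2 i k h3).2 h4⟩

namespace IsProjTri

variable {n : ℕ} {K : Set (Finset V)} {R : Finset (Finset V)}
  {ρ : G →* Matrix (Fin (n + 1)) (Fin (n + 1)) ℝ} {p : V → Fin (n + 1) → ℝ}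

/-- the direction at the vertex `v` -/
noncomputable def dir (H : IsProjTri n K R ρ p) (v : V) (η : ℝ) : Fin (n + 1) → ℝ :=
  ρ (H.gam v) *ᵥ mc n η

/-- the perturbed vector -/
noncomputable def pert (H : IsProjTri n K R ρ p) (v : V) (ε : ℝ) : Fin (n + 1) → ℝ :=
  p v + ρ (H.gam v) *ᵥ mc n ε

theorem dir_smul (H : IsProjTri n K R ρ p) (g : G) (v : V) (η : ℝ) :
    H.dir (g • v) η = ρ g *ᵥ H.dir v η := by
  unfold dir
  rw [H.gam_smul, map_mul, Matrix.mulVec_mulVec]

theorem pert_smul (H : IsProjTri n K R ρ p) (g : G) (v : V) (ε : ℝ) :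
    H.pert (g • v) ε = ρ g *ᵥ H.pert v ε := by
  unfold pert
  rw [H.gam_smul, map_mul, Matrix.mulVec_add, Matrix.mulVec_mulVec, H.equiv]

theorem pert_zero (H : IsProjTri n K R ρ p) (v : V) : H.pert v 0 = p v := by
  unfold pert
  rw [mc_zero, Matrix.mulVec_zero, add_zero]

theorem continuous_pert (H : IsProjTri n K R ρ p) (v : V) : Continuous (H.pert v) := by
  unfold pert
  exact continuous_const.add (Continuous.matrix_mulVec continuous_const (continuous_mc n))

/-- the function whose limit is the cocycle -/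
noncomputable def ff (H : IsProjTri n K R ρ p) (x : Fin (n + 1) → V)
    (q : ℝ × (Fin (n + 1) → ℝ)) : ℝ :=
  FF n (fun i => H.pert (x i) (q.2 i)) (fun i => H.dir (x i) q.1)

theorem exists_lim (H : IsProjTri n K R ρ p) (x : Fin (n + 1) → V) :
    ∃ c : ℝ, |c| ≤ 1 ∧ Tendsto (H.ff x) (WW (n + 1) : Filter _) (𝓝 c) := by
  have hK : IsCompact (Set.Icc (-1 : ℝ) 1) := isCompact_Icc
  have hmem : Set.Icc (-1 : ℝ) 1 ∈ (WW (n + 1)).map (H.ff x) := by
    have : ∀ᶠ q in (WW (n + 1) : Filter (ℝ × (Fin (n + 1) → ℝ))), H.ff x q ∈ Set.Icc (-1 : ℝ) 1 :=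
      Eventually.of_forall fun q => abs_le.1 (abs_FF_le _ _)
    exact this
  obtain ⟨c, hc, hle⟩ := hK.ultrafilter_le_nhds' _ hmem
  exact ⟨c, abs_le.2 hc, hle⟩

/-- the cocycle -/
noncomputable def coc (H : IsProjTri n K R ρ p) (x : Fin (n + 1) → V) : ℝ :=
  (H.exists_lim x).choose

theorem abs_coc_le (H : IsProjTri n K R ρ p) (x : Fin (n + 1) → V) : |H.coc x| ≤ 1 :=
  (H.exists_lim x).choose_spec.1

theorem coc_lim (H : IsProjTri n K R ρ p) (x : Fin (n + 1) → V) :
    Tendsto (H.ff x) (WW (n + 1) : Filter _) (𝓝 (H.coc x)) :=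
  (H.exists_lim x).choose_spec.2

theorem coc_smul (H : IsProjTri n K R ρ p) (g : G) (x : Fin (n + 1) → V) :
    H.coc (fun i => g • x i) = H.coc x := by
  have h1 := H.coc_lim (fun i => g • x i)
  have h2 : H.ff (fun i => g • x i) = H.ff x := by
    funext q
    unfold ff
    simp only [H.pert_smul, H.dir_smul]
    exact FF_mulVec (H.orient g) _
  rw [h2] at h1
  exact tendsto_nhds_unique h1 (H.coc_lim x)

open Module in
/-- **The cocycle identity.** -/
theorem coc_cocycle (H : IsProjTri n K R ρ p) (x : Fin (n + 2) → V) :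
    ∑ j : Fin (n + 2), (-1 : ℝ) ^ (j : ℕ) * H.coc (fun k => x (j.succAbove k)) = 0 := by
  have hlim : Tendsto (fun q : ℝ × (Fin (n + 2) → ℝ) => ∑ j : Fin (n + 2), (-1 : ℝ) ^ (j : ℕ) *
      H.ff (fun k => x (j.succAbove k)) (q.1, fun i => q.2 (j.succAbove i)))
      (WW (n + 2) : Filter _)
      (𝓝 (∑ j : Fin (n + 2), (-1 : ℝ) ^ (j : ℕ) * H.coc (fun k => x (j.succAbove k)))) := by
    apply tendsto_finsetSum
    intro j _
    exact ((H.coc_lim _).comp (WW_del (n + 1) j)).const_mul _
  have hgood : ∀ᶠ q in (WW (n + 2) : Filter (ℝ × (Fin (n + 2) → ℝ))),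
      ∑ j : Fin (n + 2), (-1 : ℝ) ^ (j : ℕ) *
      H.ff (fun k => x (j.succAbove k)) (q.1, fun i => q.2 (j.succAbove i)) = 0 := by
    rw [WW_iff]
    refine U_pos.mono fun η hη => ?_
    have hdirne : ∀ v, H.dir v η ≠ 0 := by
      intro v h0
      have h1 : (ρ (H.gam v)).det ≠ 0 := (H.orient _).ne'
      have h2 : mc n η = 0 := by
        have h3 : (ρ (H.gam v))⁻¹ *ᵥ (ρ (H.gam v) *ᵥ mc n η) = mc n η := by
          rw [Matrix.mulVec_mulVec, Matrix.nonsing_inv_mul _ (isUnit_iff_ne_zero.2 h1),
            Matrix.one_mulVec]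
        rw [← h3]
        unfold dir at h0
        rw [h0, Matrix.mulVec_zero]
      have h4 := congrFun h2 0
      simp [mc] at h4
      exact hη.ne' h4
    have hGP0 := general_position (n := n) (n + 2) (fun i => p (x i)) (fun i => ρ (H.gam (x i)))
      (fun i => (H.orient _).ne') ⊥
    have hGPw : ∀ᶠ e in (UU (n + 2) : Filter (Fin (n + 2) → ℝ)), ∀ i0 : Fin (n + 2),
        ∀ S : Finset (Fin (n + 2)), S.card + finrank ℝ (Submodule.span ℝ {H.dir (x i0) η}) ≤ n + 1 →
        finrank ℝ (Submodule.span ℝ {H.dir (x i0) η} ⊔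
          Submodule.span ℝ ((fun i => p (x i) + ρ (H.gam (x i)) *ᵥ mc n (e i)) ''
          (S : Set (Fin (n + 2)))) : Submodule ℝ (Fin (n + 1) → ℝ)) =
          S.card + finrank ℝ (Submodule.span ℝ {H.dir (x i0) η}) := by
      rw [eventually_all]
      intro i0
      exact general_position (n := n) (n + 2) (fun i => p (x i)) (fun i => ρ (H.gam (x i)))
        (fun i => (H.orient _).ne') (Submodule.span ℝ {H.dir (x i0) η})
    obtain ⟨l, hl⟩ := H.chart
    have hposn : ∀ᶠ e in (UU (n + 2) : Filter (Fin (n + 2) → ℝ)), ∀ j : Fin (n + 2),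
        0 < ∑ a, l a * H.pert (x j) (e j) a := by
      rw [eventually_all]
      intro j
      have hcont : Continuous fun e : Fin (n + 2) → ℝ => ∑ a, l a * H.pert (x j) (e j) a := by
        refine continuous_finsetSum _ fun a _ => continuous_const.mul ?_
        exact (continuous_apply a).comp ((H.continuous_pert (x j)).comp (continuous_apply j))
      have h0 : 0 < ∑ a, l a * H.pert (x j) ((0 : Fin (n + 2) → ℝ) j) a := by
        rw [Pi.zero_apply, H.pert_zero]
        exact hl (x j)
      exact UU_le_nhds (n + 2) (hcont.continuousAt.eventually_const_lt h0)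
    filter_upwards [hGP0, hGPw, hposn] with e he0 hew hpe
    -- the vectors
    set v : Fin (n + 2) → Fin (n + 1) → ℝ := fun j => H.pert (x j) (e j) with hv
    set w : Fin (n + 2) → Fin (n + 1) → ℝ := fun j => H.dir (x j) η with hw
    have hcardimg : ∀ j : Fin (n + 2), (Finset.univ.image j.succAbove).card = n + 1 := by
      intro j
      rw [Finset.card_image_of_injective _ Fin.succAbove_right_injective]
      simp
    have hdet : ∀ j : Fin (n + 2), (Matrix.of fun k => v (j.succAbove k)).det ≠ 0 := by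
      intro j
      have h1 := he0 (Finset.univ.image j.succAbove) (by rw [hcardimg, finrank_bot])
      rw [bot_sup_eq, hcardimg, finrank_bot, add_zero] at h1
      have h2 : ((fun i => p (x i) + ρ (H.gam (x i)) *ᵥ mc n (e i)) ''
          ((Finset.univ.image j.succAbove : Finset (Fin (n + 2))) : Set (Fin (n + 2)))) =
          Set.range fun k => v (j.succAbove k) := by
        ext y
        simp only [Finset.coe_image, Finset.coe_univ, Set.image_univ, Set.mem_image, Set.mem_range,
          exists_exists_eq_and]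
        rfl
      rw [h2] at h1
      have h3 : LinearIndependent ℝ (fun k => v (j.succAbove k)) := by
        rw [linearIndependent_iff_card_eq_finrank_span, Fintype.card_fin]
        exact h1.symm
      have h4 : IsUnit (Matrix.of fun k => v (j.succAbove k)) :=
        Matrix.linearIndependent_rows_iff_isUnit.1 h3
      exact ((Matrix.isUnit_iff_isUnit_det _).1 h4).ne_zero
    have hgen : ∀ (j : Fin (n + 2)) (i k : Fin (n + 1)), k ≠ i →
        crd (fun k => v (j.succAbove k)) (w (j.succAbove i)) k ≠ 0 := by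
      intro j i k hki h0
      set S : Finset (Fin (n + 2)) := (Finset.univ.erase k).image j.succAbove with hS
      have hcS : S.card = n := by
        rw [hS, Finset.card_image_of_injective _ Fin.succAbove_right_injective,
          Finset.card_erase_of_mem (Finset.mem_univ k)]
        simp
      have hf1 : finrank ℝ (Submodule.span ℝ {H.dir (x (j.succAbove i)) η}) = 1 :=
        finrank_span_singleton (hdirne _)
      have h1 := hew (j.succAbove i) S (by rw [hcS, hf1])
      rw [hcS, hf1] at h1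
      have h2 : Submodule.span ℝ {H.dir (x (j.succAbove i)) η} ≤
          Submodule.span ℝ ((fun i => p (x i) + ρ (H.gam (x i)) *ᵥ mc n (e i)) ''
          (S : Set (Fin (n + 2)))) := by
        rw [Submodule.span_singleton_le_iff_mem]
        have h3 := crd_spec (hdet j) (w (j.succAbove i))
        rw [← Finset.add_sum_erase _ _ (Finset.mem_univ k), h0, zero_smul, zero_add] at h3
        have h4 : H.dir (x (j.succAbove i)) η = w (j.succAbove i) := rfl
        rw [h4, ← h3]
        refine Submodule.sum_mem _ fun k' hk' => Submodule.smul_mem _ _ (Submodule.subset_span ?_)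
        refine ⟨j.succAbove k', ?_, rfl⟩
        rw [hS, Finset.mem_coe]
        exact Finset.mem_image_of_mem _ hk'
      rw [sup_eq_right.2 h2] at h1
      have h5 := finrank_span_finset_le_card (R := ℝ)
        (S.image fun i => p (x i) + ρ (H.gam (x i)) *ᵥ mc n (e i))
      rw [Finset.coe_image] at h5
      unfold Set.finrank at h5
      rw [h1] at h5
      have h6 := Finset.card_image_le (s := S)
        (f := fun i => p (x i) + ρ (H.gam (x i)) *ᵥ mc n (e i))
      omega
    exact FF_cocycle v w hdet hgen ⟨l, hpe⟩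
  have hlim0 : Tendsto (fun q : ℝ × (Fin (n + 2) → ℝ) => ∑ j : Fin (n + 2), (-1 : ℝ) ^ (j : ℕ) *
      H.ff (fun k => x (j.succAbove k)) (q.1, fun i => q.2 (j.succAbove i)))
      (WW (n + 2) : Filter _) (𝓝 0) :=
    tendsto_const_nhds.congr' (hgood.mono fun q h => h.symm)
  exact tendsto_nhds_unique hlim hlim0

end IsProjTri

end MP8a95ee.CP
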