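import Pool.Agent.Work.MP_8a95ee_gt.CP.Bd

/-!
# The theorem for real projective manifolds
-/

set_option autoImplicit false

namespace MP8a95ee.CP

variable {V G : Type} [Group G] [MulAction G V]

namespace IsProjTri

variable {m : ℕ} {K : Set (Finset V)} {R : Finset (Finset V)}
  {ρ : G →* Matrix (Fin (m + 1 + 1)) (Fin (m + 1 + 1)) ℝ} {p : V → Fin (m + 1 + 1) → ℝ}

/-- a bounded singular cocycle whose value at the fundamental cycle is the Euler characteristic -/
theorem exists_euler_cochain (H : IsProjTri (m + 1) K R ρ p) :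
    ∃ C : SSimplex (Mfd G K) (m + 1) → ℝ, (∀ σ, |C σ| ≤ 1) ∧
      (∀ σ : SSimplex (Mfd G K) (m + 1 + 1),
        ∑ i : Fin (m + 1 + 2), (-1 : ℝ) ^ (i : ℕ) * C (face σ i) = 0) ∧
      ev C (fundCycle G (m + 1) K R p) = (eulerChar R : ℝ) := by
  obtain ⟨C, hC1, hC2, hC3⟩ := H.exists_cochain (m + 1) H.coc 1 H.abs_coc_le
    (fun g v => H.coc_smul g v) H.coc_cocycle
  refine ⟨C, hC1, hC2, ?_⟩
  have h1 : ev C H.fc = ((m + 1 + 1).factorial : ℝ) * (eulerChar R : ℝ) := by
    rw [← H.sum_coc]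
    unfold fc
    rw [map_sum]
    refine Finset.sum_congr rfl fun s hs => ?_
    rw [map_sum]
    refine Finset.sum_congr rfl fun t ht => ?_
    rw [map_smul, smul_eq_mul]
    congr 1
    have h2 := simPt_mem (H.sub s hs) t (mem_orderings.1 ht).1
    unfold qc
    rw [simCh_eq _ h2, push_single, ev_single, one_mul]
    exact hC3 (sim t h2) t fun j y => simPt_vertex t j y
  rw [H.fundCycle_eq, map_smul, h1, smul_eq_mul, ← mul_assoc,
    inv_mul_cancel₀ (Nat.cast_ne_zero.2 (Nat.factorial_ne_zero _)), one_mul]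

theorem main (H : IsProjTri (m + 1) K R ρ p) :
    bd (fundCycle G (m + 1) K R p) = 0 ∧
    ∀ (Y : Type) [TopologicalSpace Y] (f : C(Y, Mfd G K)) (lam : ℝ)
      (z : SChain Y (m + 1)) (w : SChain (Mfd G K) (m + 2)),
      push f z = lam • fundCycle G (m + 1) K R p + bd w →
      |lam| * |(eulerChar R : ℝ)| ≤ l1 z := by
  refine ⟨H.bd_fundCycle, ?_⟩
  intro Y _ f lam z w hz
  obtain ⟨C, hC1, hC2, hC3⟩ := H.exists_euler_cochain
  have h1 := congrArg (ev C) hz
  rw [ev_push, map_add, ev_bd hC2 w, map_smul, hC3, add_zero, smul_eq_mul] at h1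
  rw [← abs_mul, ← h1]
  have h2 := abs_ev_le (C := fun σ => C (f.comp σ)) (fun σ => hC1 _) z
  rwa [one_mul] at h2

end IsProjTri

end MP8a95ee.CP
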