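import Mathlib

/-!
# The order lemma and the numbers `gq`
-/

set_option autoImplicit false

namespace MP8a95ee.CP

/-- the sign of a real number as a real number -/
noncomputable def sgn (x : ℝ) : ℝ := ((SignType.sign x : SignType) : ℝ)

theorem sgn_pos {x : ℝ} (h : 0 < x) : sgn x = 1 := by
  unfold sgn; rw [sign_pos h]; rfl

theorem sgn_neg {x : ℝ} (h : x < 0) : sgn x = -1 := by
  unfold sgn; rw [sign_neg h]; simp

theorem sgn_mul (x y : ℝ) : sgn (x * y) = sgn x * sgn y := by
  unfold sgn; rw [sign_mul]; simp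

theorem sgn_one : sgn 1 = 1 := sgn_pos one_pos

theorem sgn_neg_one_pow (j : ℕ) : sgn ((-1) ^ j) = (-1) ^ j := by
  induction j with
  | zero => simp [sgn_one]
  | succ k ih => rw [pow_succ, sgn_mul, ih, sgn_neg (by norm_num : (-1 : ℝ) < 0)]

theorem abs_sgn_le (x : ℝ) : |sgn x| ≤ 1 := by
  rcases lt_trichotomy x 0 with h | h | h
  · rw [sgn_neg h]; simp
  · rw [h]; unfold sgn; simp
  · rw [sgn_pos h]; simp

theorem sgn_mul_self {x : ℝ} (h : x ≠ 0) : sgn x * sgn x = 1 := by
  rcases lt_or_gt_of_ne h with h | h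
  · rw [sgn_neg h]; simp
  · rw [sgn_pos h]; simp

/-- Walking through a finite set in the order of `τ`. -/
theorem telescope {ι : Type} [DecidableEq ι] (s : Finset ι) (c τ : ι → ℝ) :
    (∀ i ∈ s, ∀ j ∈ s, i ≠ j → τ i ≠ τ j) → (∀ i ∈ s, c i ≠ 0) → ∀ g : ℕ → ℝ,
    ∑ j ∈ s, sgn (c j) * g (s.filter fun k => k ≠ j ∧ 0 < c k * (τ k - τ j)).card =
      ∑ q ∈ Finset.range (s.filter fun k => 0 < c k).card, g q -
        ∑ q ∈ Finset.range (s.filter fun k => c k < 0).card, g q := by
  refine Finset.induction_on_min_value τ s ?_ ?_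
  · intro _ _ g
    simp
  · intro a s ha hmin ih hτ hc g
    have hlt : ∀ x ∈ s, τ a < τ x := by
      intro x hx
      refine lt_of_le_of_ne (hmin x hx) ?_
      apply hτ a (Finset.mem_insert_self a s) x (Finset.mem_insert_of_mem hx)
      rintro rfl
      exact ha hx
    have hτ' : ∀ i ∈ s, ∀ j ∈ s, i ≠ j → τ i ≠ τ j := fun i hi j hj =>
      hτ i (Finset.mem_insert_of_mem hi) j (Finset.mem_insert_of_mem hj)
    have hc' : ∀ i ∈ s, c i ≠ 0 := fun i hi => hc i (Finset.mem_insert_of_mem hi)
    have hca := hc a (Finset.mem_insert_self a s)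
    have hself : ((insert a s).filter fun k => k ≠ a ∧ 0 < c k * (τ k - τ a)) =
        s.filter fun k => 0 < c k := by
      ext k
      simp only [Finset.mem_filter, Finset.mem_insert]
      constructor
      · rintro ⟨hk | hk, hka, h⟩
        · exact absurd hk hka
        · exact ⟨hk, (pos_iff_pos_of_mul_pos h).2 (sub_pos.2 (hlt k hk))⟩
      · rintro ⟨hk, h⟩
        refine ⟨Or.inr hk, ?_, mul_pos h (sub_pos.2 (hlt k hk))⟩
        rintro rfl
        exact ha hk
    rw [Finset.sum_insert ha, hself]
    rcases lt_or_gt_of_ne hca with hneg | hpos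
    · have hP : ((insert a s).filter fun k => 0 < c k) = s.filter fun k => 0 < c k := by
        rw [Finset.filter_insert, if_neg (not_lt.2 hneg.le)]
      have hN : ((insert a s).filter fun k => c k < 0) = insert a (s.filter fun k => c k < 0) := by
        rw [Finset.filter_insert, if_pos hneg]
      have hcardN : ((insert a s).filter fun k => c k < 0).card =
          (s.filter fun k => c k < 0).card + 1 := by
        rw [hN, Finset.card_insert_of_notMem]
        intro h
        exact ha (Finset.mem_filter.1 h).1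
      have hj : ∀ j ∈ s, sgn (c j) * g ((insert a s).filter fun k =>
          k ≠ j ∧ 0 < c k * (τ k - τ j)).card =
          sgn (c j) * (fun q => g (q + 1)) (s.filter fun k => k ≠ j ∧ 0 < c k * (τ k - τ j)).card := by
        intro j hj
        have haj : a ≠ j := by rintro rfl; exact ha hj
        have h1 : ((insert a s).filter fun k => k ≠ j ∧ 0 < c k * (τ k - τ j)) =
            insert a (s.filter fun k => k ≠ j ∧ 0 < c k * (τ k - τ j)) := by
          rw [Finset.filter_insert, if_pos]
          exact ⟨haj, mul_pos_of_neg_of_neg hneg (sub_neg.2 (hlt j hj))⟩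
        rw [h1, Finset.card_insert_of_notMem]
        intro h
        exact ha (Finset.mem_filter.1 h).1
      rw [Finset.sum_congr rfl hj, ih hτ' hc' (fun q => g (q + 1)), hP, hcardN, sgn_neg hneg]
      have e1 : ∀ m : ℕ, ∑ q ∈ Finset.range m, g (q + 1) =
          ∑ q ∈ Finset.range m, g q + g m - g 0 := by
        intro m
        have := Finset.sum_range_succ' g m
        rw [Finset.sum_range_succ] at this
        linarith
      simp only [e1]
      rw [Finset.sum_range_succ]
      ring
    · have hP : ((insert a s).filter fun k => 0 < c k) = insert a (s.filter fun k => 0 < c k) := by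
        rw [Finset.filter_insert, if_pos hpos]
      have hN : ((insert a s).filter fun k => c k < 0) = s.filter fun k => c k < 0 := by
        rw [Finset.filter_insert, if_neg (not_lt.2 hpos.le)]
      have hcardP : ((insert a s).filter fun k => 0 < c k).card =
          (s.filter fun k => 0 < c k).card + 1 := by
        rw [hP, Finset.card_insert_of_notMem]
        intro h
        exact ha (Finset.mem_filter.1 h).1
      have hj : ∀ j ∈ s, sgn (c j) * g ((insert a s).filter fun k =>
          k ≠ j ∧ 0 < c k * (τ k - τ j)).card =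
          sgn (c j) * g (s.filter fun k => k ≠ j ∧ 0 < c k * (τ k - τ j)).card := by
        intro j hj
        have h1 : ((insert a s).filter fun k => k ≠ j ∧ 0 < c k * (τ k - τ j)) =
            s.filter fun k => k ≠ j ∧ 0 < c k * (τ k - τ j) := by
          rw [Finset.filter_insert, if_neg]
          rintro ⟨-, h⟩
          exact absurd h (not_lt.2 (mul_nonpos_of_nonneg_of_nonpos hpos.le
            (sub_nonpos.2 (hlt j hj).le)))
        rw [h1]
      rw [Finset.sum_congr rfl hj, ih hτ' hc' g, hN, hcardP, sgn_pos hpos, Finset.sum_range_succ]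
      ring

/-- the numbers `gq n q = (-1)^(n-q) / ((n+1) binom(n,q))` -/
noncomputable def gq (n q : ℕ) : ℝ := (-1) ^ (n + q) / ((n + 1 : ℝ) * (n.choose q : ℝ))

theorem gq_rec {n q : ℕ} (h : q < n) :
    ((q : ℝ) + 1) * gq n q + ((n : ℝ) - q) * gq n (q + 1) = 0 := by
  unfold gq
  have h1 : (n.choose (q + 1) : ℝ) * ((q : ℝ) + 1) = (n.choose q : ℝ) * ((n : ℝ) - q) := by
    have := Nat.choose_succ_right_eq n q
    have h2 : ((n.choose (q + 1) * (q + 1) : ℕ) : ℝ) = ((n.choose q * (n - q) : ℕ) : ℝ) := by
      rw [this]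
    push_cast [Nat.cast_sub h.le] at h2
    exact h2
  have hc : (0 : ℝ) < (n.choose q : ℝ) := by exact_mod_cast Nat.choose_pos h.le
  have hc' : (0 : ℝ) < (n.choose (q + 1) : ℝ) := by exact_mod_cast Nat.choose_pos h
  have hn : (0 : ℝ) < (n : ℝ) + 1 := by positivity
  have e : (-1 : ℝ) ^ (n + (q + 1)) = -(-1) ^ (n + q) := by rw [← add_assoc, pow_succ]; ring
  rw [e]
  field_simp
  linear_combination ((-1 : ℝ) ^ (n + q)) * h1

theorem abs_gq_le (n q : ℕ) : |gq n q| ≤ 1 / ((n : ℝ) + 1) := by
  unfold gq
  rw [abs_div, abs_pow, abs_neg, abs_one, one_pow]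
  have hn : (0 : ℝ) < (n : ℝ) + 1 := by positivity
  rw [abs_of_nonneg (by positivity)]
  rcases Nat.eq_zero_or_pos (n.choose q) with h | h
  · rw [h]; simp; positivity
  · apply one_div_le_one_div_of_le hn
    have : (1 : ℝ) ≤ (n.choose q : ℝ) := by exact_mod_cast h
    nlinarith

/-- `H(P) = P G(P-1) + (n+2-P) G(P)` is constant for `1 ≤ P ≤ n + 1`. -/
theorem H_const (n : ℕ) : ∀ m : ℕ, m ≤ n →
    ((m : ℝ) + 1) * ∑ q ∈ Finset.range m, gq n q +
      ((n : ℝ) + 1 - m) * ∑ q ∈ Finset.range (m + 1), gq n q = ((n : ℝ) + 1) * gq n 0 := by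
  intro m
  induction m with
  | zero => intro _; simp
  | succ m ih =>
    intro hm
    have h1 := ih (by omega)
    have h2 := gq_rec (n := n) (q := m) (by omega)
    rw [Finset.sum_range_succ (n := m + 1), Finset.sum_range_succ (n := m)]
    rw [Finset.sum_range_succ (n := m)] at h1
    push_cast
    linear_combination h1 + h2

end MP8a95ee.CP
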