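import Pool.Agent.Work.MP_8a95ee_gt.CP.Eval

/-!
# Double counting of orbits and the value on the fundamental cycle
-/

set_option autoImplicit false

namespace MP8a95ee.CP

open Matrix Filter Topology

variable {V G : Type} [Group G] [MulAction G V]

namespace IsProjTri

variable {n : ℕ} {K : Set (Finset V)} {R : Finset (Finset V)}
  {ρ : G →* Matrix (Fin (n + 1)) (Fin (n + 1)) ℝ} {p : V → Fin (n + 1) → ℝ}

open Classical in
/-- total version of `gm` -/
noncomputable def gt (H : IsProjTri n K R ρ p) (s : Finset V) : G :=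
  if h : s ∈ K then H.gm s h else 1

open Classical in
/-- total version of `rp` -/
noncomputable def rt (H : IsProjTri n K R ρ p) (s : Finset V) : Finset V :=
  if h : s ∈ K then H.rp s h else s

theorem rt_mem (H : IsProjTri n K R ρ p) {s : Finset V} (hs : s ∈ K) : H.rt s ∈ R := by
  unfold rt; rw [dif_pos hs]; exact H.rp_mem hs

theorem tr_gt_rt (H : IsProjTri n K R ρ p) {s : Finset V} (hs : s ∈ K) :
    tr (H.gt s) (H.rt s) = s := by
  unfold gt rt; rw [dif_pos hs, dif_pos hs]; exact H.tr_gm_rp hs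

theorem gt_of_mem (H : IsProjTri n K R ρ p) {r : Finset V} (hr : r ∈ R) :
    H.gt r = 1 ∧ H.rt r = r := by
  have hK := H.sub r hr
  unfold gt rt; rw [dif_pos hK, dif_pos hK]; exact H.gm_of_mem hr

theorem gt_tr (H : IsProjTri n K R ρ p) {s : Finset V} (hs : s ∈ K) (g : G) :
    H.gt (tr g s) = g * H.gt s ∧ H.rt (tr g s) = H.rt s := by
  have hK := H.inv g s hs
  unfold gt rt; rw [dif_pos hK, dif_pos hK, dif_pos hs, dif_pos hs]; exact H.gm_tr hs g

theorem rt_eq (H : IsProjTri n K R ρ p) {s : Finset V} (hs : s ∈ K) :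
    H.rt s = tr (H.gt s)⁻¹ s := by
  have h := congrArg (tr (H.gt s)⁻¹) (H.tr_gt_rt hs)
  rw [tr_inv_tr] at h
  exact h

open Classical in
/-- double counting of the orbits of pairs `S ⊆ T`, `T` a top simplex -/
theorem double_count (H : IsProjTri n K R ρ p) (φ : Finset V → Finset V → ℝ)
    (hφ : ∀ (g : G), ∀ S ∈ K, ∀ T ∈ K, φ (tr g S) (tr g T) = φ S T) :
    ∑ T ∈ R.filter (fun T => T.card = n + 1), ∑ S ∈ T.powerset.filter Finset.Nonempty, φ S T =
      ∑ S ∈ R, ∑ T ∈ H.topStar S, φ S T := by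
  rw [Finset.sum_sigma', Finset.sum_sigma']
  refine Finset.sum_bij' (i := fun x _ => ⟨H.rt x.2, tr (H.gt x.2)⁻¹ x.1⟩)
    (j := fun y _ => ⟨H.rt y.2, tr (H.gt y.2)⁻¹ y.1⟩) ?_ ?_ ?_ ?_ ?_
  · rintro ⟨T, S⟩ hx
    rw [Finset.mem_sigma, Finset.mem_filter, Finset.mem_filter, Finset.mem_powerset] at hx
    obtain ⟨⟨hTR, hTc⟩, hST, hSne⟩ := hx
    have hTK := H.sub T hTR
    have hSK := H.down T hTK S hST hSne
    rw [Finset.mem_sigma]
    refine ⟨H.rt_mem hSK, ?_⟩
    have hne : (H.rt S).Nonempty := H.nonempty _ (H.sub _ (H.rt_mem hSK))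
    show tr (H.gt S)⁻¹ T ∈ H.topStar (H.rt S)
    rw [H.mem_topStar hne]
    refine ⟨H.inv _ T hTK, ?_, by rw [card_tr]; exact hTc⟩
    rw [H.rt_eq hSK, tr_subset]
    exact hST
  · rintro ⟨S, T⟩ hy
    rw [Finset.mem_sigma] at hy
    obtain ⟨hSR, hT⟩ := hy
    have hSK := H.sub S hSR
    have hT' := (H.mem_topStar (H.nonempty S hSK)).1 hT
    obtain ⟨hTK, hST, hTc⟩ := hT'
    rw [Finset.mem_sigma, Finset.mem_filter, Finset.mem_filter, Finset.mem_powerset]
    refine ⟨⟨H.rt_mem hTK, ?_⟩, ?_, ?_⟩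
    · show (H.rt T).card = n + 1
      rw [H.rt_eq hTK, card_tr]; exact hTc
    · show tr (H.gt T)⁻¹ S ⊆ H.rt T
      rw [H.rt_eq hTK, tr_subset]; exact hST
    · show (tr (H.gt T)⁻¹ S).Nonempty
      rw [← Finset.card_pos, card_tr, Finset.card_pos]
      exact H.nonempty S hSK
  · rintro ⟨T, S⟩ hx
    rw [Finset.mem_sigma, Finset.mem_filter, Finset.mem_filter, Finset.mem_powerset] at hx
    obtain ⟨⟨hTR, hTc⟩, hST, hSne⟩ := hx
    have hTK := H.sub T hTR
    have hSK := H.down T hTK S hST hSne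
    obtain ⟨h1, h2⟩ := H.gt_tr hTK (H.gt S)⁻¹
    obtain ⟨h3, h4⟩ := H.gt_of_mem hTR
    rw [h3, mul_one] at h1
    rw [h4] at h2
    show (⟨H.rt (tr (H.gt S)⁻¹ T), tr (H.gt (tr (H.gt S)⁻¹ T))⁻¹ (H.rt S)⟩ : Σ _ : Finset V, Finset V) =
      ⟨T, S⟩
    rw [h1, h2, inv_inv, H.tr_gt_rt hSK]
  · rintro ⟨S, T⟩ hy
    rw [Finset.mem_sigma] at hy
    obtain ⟨hSR, hT⟩ := hy
    have hSK := H.sub S hSR
    obtain ⟨hTK, hST, hTc⟩ := (H.mem_topStar (H.nonempty S hSK)).1 hT
    obtain ⟨h1, h2⟩ := H.gt_tr hSK (H.gt T)⁻¹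
    obtain ⟨h3, h4⟩ := H.gt_of_mem hSR
    rw [h3, mul_one] at h1
    rw [h4] at h2
    show (⟨H.rt (tr (H.gt T)⁻¹ S), tr (H.gt (tr (H.gt T)⁻¹ S))⁻¹ (H.rt T)⟩ : Σ _ : Finset V, Finset V) =
      ⟨S, T⟩
    rw [h1, h2, inv_inv, H.tr_gt_rt hTK]
  · rintro ⟨T, S⟩ hx
    rw [Finset.mem_sigma, Finset.mem_filter, Finset.mem_filter, Finset.mem_powerset] at hx
    obtain ⟨⟨hTR, hTc⟩, hST, hSne⟩ := hx
    have hTK := H.sub T hTR
    have hSK := H.down T hTK S hST hSne
    show φ S T = φ (H.rt S) (tr (H.gt S)⁻¹ T)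
    rw [H.rt_eq hSK, hφ _ S hSK T hTK]

open Classical in
/-- the number of positive coordinates of the direction at `v` in the simplex `T` -/
noncomputable def qT (H : IsProjTri n K R ρ p) (η : ℝ) (T : Finset V) (v : V) : ℕ :=
  (T.filter fun u => u ≠ v ∧ 0 < H.cT T (H.dir v η) u).card

theorem card_orderings {T : Finset V} (hT : T.card = n + 1) :
    (orderings n T).card = (n + 1).factorial := by
  classical
  have e : {t : Fin (n + 1) → V // t ∈ orderings n T} ≃ (Fin (n + 1) ↪ T) :=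
    { toFun := fun t => ⟨fun i => ⟨t.1 i, (mem_orderings.1 t.2).1 i⟩, fun i j h =>
        (mem_orderings.1 t.2).2 (congrArg Subtype.val h)⟩
      invFun := fun f => ⟨fun i => (f i : V), mem_orderings.2 ⟨fun i => (f i).2, fun i j h =>
        f.injective (Subtype.ext h)⟩⟩
      left_inv := fun t => rfl
      right_inv := fun f => rfl }
  have h1 : (orderings n T).card = Fintype.card {t : Fin (n + 1) → V // t ∈ orderings n T} := by
    rw [Fintype.card_coe]
  rw [h1, Fintype.card_congr e, Fintype.card_embedding_eq, Fintype.card_coe, hT, Fintype.card_fin,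
    Nat.descFactorial_self]

theorem orderings_eq_empty {T : Finset V} (hT : T.card ≤ n + 1) (hT' : T.card ≠ n + 1) :
    orderings n T = ∅ := by
  classical
  rw [Finset.eq_empty_iff_forall_notMem]
  intro t ht
  apply hT'
  rw [← image_ordering hT ht, Finset.card_image_of_injective _ (mem_orderings.1 ht).2]
  simp

/-- the value of `FF` at an ordered top simplex for a generic parameter -/
theorem sgn_mul_FF (H : IsProjTri n K R ρ p) (η : ℝ) {T : Finset V} (hT : T ∈ K)
    (hc : T.card = n + 1) {t : Fin (n + 1) → V} (ht : t ∈ orderings n T) :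
    sgn (Matrix.of fun i => p (t i)).det *
      FF n (fun i => p (t i)) (fun i => H.dir (t i) η) = ∑ v ∈ T, gq n (H.qT η T v) := by
  classical
  unfold FF
  rw [← mul_assoc, sgn_mul_self (H.det_ordering hT ht), one_mul,
    ← sum_ordering hc.le ht (fun v => gq n (H.qT η T v))]
  refine Finset.sum_congr rfl fun i _ => ?_
  congr 1
  unfold Qn qT
  rw [← Finset.card_image_of_injective _ (mem_orderings.1 ht).2]
  congr 1
  ext u
  rw [Finset.mem_image, Finset.mem_filter]
  constructor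
  · rintro ⟨k, hk, rfl⟩
    rw [Finset.mem_filter] at hk
    refine ⟨(mem_orderings.1 ht).1 k, fun h => hk.2.1 ((mem_orderings.1 ht).2 h), ?_⟩
    rw [← H.crd_eq_cT hT hc ht]
    exact hk.2.2
  · rintro ⟨hu, hne, hpos⟩
    rw [← image_ordering hc.le ht] at hu
    obtain ⟨k, -, rfl⟩ := Finset.mem_image.1 hu
    refine ⟨k, ?_, rfl⟩
    rw [Finset.mem_filter]
    refine ⟨Finset.mem_univ k, fun h => hne (by rw [h]), ?_⟩
    rw [H.crd_eq_cT hT hc ht]
    exact hpos

open Classical in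
/-- the local contributions -/
noncomputable def phi (H : IsProjTri n K R ρ p) (η : ℝ) (S T : Finset V) : ℝ :=
  ∑ v ∈ S, if ∀ u ∈ T, u ∉ S → 0 < H.cT T (H.dir v η) u then (-1 : ℝ) ^ (S.card + 1) / S.card else 0

open Classical in
theorem sum_gq (H : IsProjTri n K R ρ p) {η : ℝ} {T : Finset V}
    (hc : T.card = n + 1) : ∑ v ∈ T, gq n (H.qT η T v) =
      ∑ S ∈ T.powerset.filter Finset.Nonempty, H.phi η S T := by
  have h1 : ∀ v ∈ T, gq n (H.qT η T v) = ∑ S ∈ T.powerset.filter Finset.Nonempty,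
      if v ∈ S ∧ ∀ u ∈ T, u ∉ S → 0 < H.cT T (H.dir v η) u then (-1 : ℝ) ^ (S.card + 1) / S.card
      else 0 := by
    intro v hv
    unfold qT
    rw [gq_eq_sum T hc v (T.filter fun u => u ≠ v ∧ 0 < H.cT T (H.dir v η) u) _ hv,
      ← Finset.sum_filter]
    · refine Finset.sum_congr ?_ fun _ _ => rfl
      ext S
      simp only [Finset.mem_filter, Finset.mem_powerset]
      constructor
      · rintro ⟨hST, hvS, hsub⟩
        refine ⟨⟨hST, ⟨v, hvS⟩⟩, hvS, fun u hu huS => ?_⟩
        exact (Finset.mem_filter.1 (hsub (Finset.mem_sdiff.2 ⟨hu, huS⟩))).2.2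
      · rintro ⟨⟨hST, -⟩, hvS, hpos⟩
        refine ⟨hST, hvS, fun u hu => ?_⟩
        obtain ⟨huT, huS⟩ := Finset.mem_sdiff.1 hu
        rw [Finset.mem_filter]
        refine ⟨huT, ?_, hpos u huT huS⟩
        rintro rfl
        exact huS hvS
    · intro u hu
      rw [Finset.mem_filter] at hu
      exact Finset.mem_erase.2 ⟨hu.2.1, hu.1⟩
  rw [Finset.sum_congr rfl h1, Finset.sum_comm]
  refine Finset.sum_congr rfl fun S hS => ?_
  rw [Finset.mem_filter, Finset.mem_powerset] at hS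
  unfold phi
  have h2 : ∑ v ∈ T, (if v ∈ S ∧ ∀ u ∈ T, u ∉ S → 0 < H.cT T (H.dir v η) u then
      (-1 : ℝ) ^ (S.card + 1) / S.card else 0) =
      ∑ v ∈ T.filter (fun v => v ∈ S), (if ∀ u ∈ T, u ∉ S → 0 < H.cT T (H.dir v η) u then
      (-1 : ℝ) ^ (S.card + 1) / S.card else 0) := by
    rw [Finset.sum_filter]
    refine Finset.sum_congr rfl fun v _ => ?_
    by_cases hvS : v ∈ S
    · simp only [hvS, true_and, if_true]
    · simp only [hvS, false_and, if_false]
  rw [h2]
  refine Finset.sum_congr ?_ fun _ _ => rfl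
  ext v
  rw [Finset.mem_filter]
  exact ⟨fun h => h.2, fun h => ⟨hS.1 h, h⟩⟩

theorem cT_pos_smul (H : IsProjTri n K R ρ p) (η : ℝ) (g : G) (S T : Finset V) (hT : T ∈ K)
    (hc : T.card = n + 1) (v : V) :
    (∀ u ∈ tr g T, u ∉ tr g S → 0 < H.cT (tr g T) (H.dir (g • v) η) u) ↔
      ∀ u ∈ T, u ∉ S → 0 < H.cT T (H.dir v η) u := by
  constructor
  · intro h u hu huS
    have := h (g • u) (smul_mem_tr.2 hu) (fun h' => huS (smul_mem_tr.1 h'))
    rwa [H.dir_smul, H.cT_smul hT hc g _ u hu] at this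
  · intro h u hu huS
    rw [mem_tr] at hu huS
    have := h _ hu huS
    rw [← H.cT_smul hT hc g _ _ hu, ← H.dir_smul, smul_inv_smul] at this
    exact this

theorem phi_tr (H : IsProjTri n K R ρ p) (η : ℝ) (g : G) (S T : Finset V) (hT : T ∈ K)
    (hc : T.card = n + 1) : H.phi η (tr g S) (tr g T) = H.phi η S T := by
  classical
  unfold phi
  rw [sum_tr, card_tr]
  refine Finset.sum_congr rfl fun v _ => ?_
  simp only [H.cT_pos_smul η g S T hT hc v]

open Classical in
theorem sum_phi (H : IsProjTri n K R ρ p) {η : ℝ} (hη : H.Good η) {S : Finset V} (hS : S ∈ K) :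
    ∑ T ∈ H.topStar S, H.phi η S T = (-1 : ℝ) ^ (S.card + 1) := by
  unfold phi
  rw [Finset.sum_comm]
  have h1 : ∀ v ∈ S, ∑ T ∈ H.topStar S, (if ∀ u ∈ T, u ∉ S → 0 < H.cT T (H.dir v η) u then
      (-1 : ℝ) ^ (S.card + 1) / S.card else 0) = (-1 : ℝ) ^ (S.card + 1) / S.card := by
    intro v hv
    rw [← Finset.sum_filter, Finset.sum_const, H.count_one hη hS hv, one_smul]
  rw [Finset.sum_congr rfl h1, Finset.sum_const, nsmul_eq_mul]
  have hc : (S.card : ℝ) ≠ 0 := by
    have := Finset.card_pos.2 (H.nonempty S hS)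
    positivity
  field_simp

/-- for a generic parameter the sum over the orbits is `(n + 1)!` times the Euler characteristic -/
theorem sum_good (H : IsProjTri n K R ρ p) {η : ℝ} (hη : H.Good η) :
    ∑ s ∈ R, ∑ t ∈ orderings n s, sgn (Matrix.of fun i => p (t i)).det *
      FF n (fun i => p (t i)) (fun i => H.dir (t i) η) =
      ((n + 1).factorial : ℝ) * (eulerChar R : ℝ) := by
  classical
  have h1 : ∀ s ∈ R, ∑ t ∈ orderings n s, sgn (Matrix.of fun i => p (t i)).det *
      FF n (fun i => p (t i)) (fun i => H.dir (t i) η) =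
      if s.card = n + 1 then ((n + 1).factorial : ℝ) * ∑ v ∈ s, gq n (H.qT η s v) else 0 := by
    intro s hs
    have hK := H.sub s hs
    by_cases hc : s.card = n + 1
    · rw [if_pos hc, Finset.sum_congr rfl fun t ht => H.sgn_mul_FF η hK hc ht, Finset.sum_const,
        card_orderings hc, nsmul_eq_mul]
    · rw [if_neg hc, orderings_eq_empty (H.card_le hK) hc, Finset.sum_empty]
  rw [Finset.sum_congr rfl h1, ← Finset.sum_filter, ← Finset.mul_sum]
  congr 1
  have h2 : ∀ s ∈ R.filter (fun s => s.card = n + 1), ∑ v ∈ s, gq n (H.qT η s v) =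
      ∑ S ∈ s.powerset.filter Finset.Nonempty,
        (fun S T : Finset V => if T.card = n + 1 then H.phi η S T else 0) S s := by
    intro s hs
    have hc := (Finset.mem_filter.1 hs).2
    rw [H.sum_gq hc]
    refine Finset.sum_congr rfl fun S _ => ?_
    show H.phi η S s = if s.card = n + 1 then H.phi η S s else 0
    rw [if_pos hc]
  rw [Finset.sum_congr rfl h2, H.double_count]
  · unfold eulerChar
    push_cast
    refine Finset.sum_congr rfl fun S hS => ?_
    have hSK := H.sub S hS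
    rw [← H.sum_phi hη hSK]
    refine Finset.sum_congr rfl fun T hT => ?_
    show (if T.card = n + 1 then H.phi η S T else 0) = H.phi η S T
    rw [if_pos ((H.mem_topStar (H.nonempty S hSK)).1 hT).2.2]
  · intro g S _ T hT
    show (if (tr g T).card = n + 1 then H.phi η (tr g S) (tr g T) else 0) =
      if T.card = n + 1 then H.phi η S T else 0
    rw [card_tr]
    by_cases hc : T.card = n + 1
    · rw [if_pos hc, if_pos hc, H.phi_tr η g S T hT hc]
    · rw [if_neg hc, if_neg hc]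

/-- **The value of the cocycle on the fundamental cycle.** -/
theorem sum_coc (H : IsProjTri n K R ρ p) :
    ∑ s ∈ R, ∑ t ∈ orderings n s, sgn (Matrix.of fun i => p (t i)).det * H.coc t =
      ((n + 1).factorial : ℝ) * (eulerChar R : ℝ) := by
  have h1 : Tendsto (fun η => ∑ s ∈ R, ∑ t ∈ orderings n s, sgn (Matrix.of fun i => p (t i)).det *
      FF n (fun i => p (t i)) (fun i => H.dir (t i) η)) (U : Filter ℝ)
      (𝓝 (∑ s ∈ R, ∑ t ∈ orderings n s, sgn (Matrix.of fun i => p (t i)).det * H.coc t)) := by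
    apply tendsto_finsetSum
    intro s hs
    apply tendsto_finsetSum
    intro t ht
    exact (H.lim_eval (H.det_ordering (H.sub s hs) ht)).const_mul _
  have h2 : Tendsto (fun η => ∑ s ∈ R, ∑ t ∈ orderings n s, sgn (Matrix.of fun i => p (t i)).det *
      FF n (fun i => p (t i)) (fun i => H.dir (t i) η)) (U : Filter ℝ)
      (𝓝 (((n + 1).factorial : ℝ) * (eulerChar R : ℝ))) :=
    tendsto_const_nhds.congr' (H.good_eventually.mono fun η hη => (H.sum_good hη).symm)
  exact tendsto_nhds_unique h1 h2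

end IsProjTri

end MP8a95ee.CP
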