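import Pool.Agent.Work.MP_8a95ee_gt.CP.Sum
import Mathlib.Topology.Covering.Quotient

/-!
# The projection is a covering map; lifts of singular simplices
-/

set_option autoImplicit false

namespace MP8a95ee.CP

open Filter Topology

variable {V G : Type} [Group G] [MulAction G V]

theorem simplyConn (n : ℕ) : SimplyConnectedSpace (stdSimplex ℝ (Fin (n + 1))) := by
  have : ContractibleSpace (stdSimplex ℝ (Fin (n + 1))) :=
    (convex_stdSimplex ℝ (Fin (n + 1))).contractibleSpace
      ⟨_, single_mem_stdSimplex ℝ (0 : Fin (n + 1))⟩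
  infer_instance

theorem locPath (n : ℕ) : LocallyPathConnectedSpace (stdSimplex ℝ (Fin (n + 1))) :=
  (convex_stdSimplex ℝ (Fin (n + 1))).locallyPathConnectedSpace

open Classical in
/-- the support of a function, if it is finite -/
noncomputable def suppF (x : V → ℝ) : Finset V :=
  if h : {v | x v ≠ 0}.Finite then h.toFinset else ∅

namespace IsProjTri

variable {n : ℕ} {K : Set (Finset V)} {R : Finset (Finset V)}
  {ρ : G →* Matrix (Fin (n + 1)) (Fin (n + 1)) ℝ} {p : V → Fin (n + 1) → ℝ}

theorem supp_spec (H : IsProjTri n K R ρ p) {x : V → ℝ} (hx : x ∈ realisation K) :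
    suppF x ∈ K ∧ (∀ v, v ∈ suppF x ↔ x v ≠ 0) ∧ ∑ v ∈ suppF x, x v = 1 := by
  classical
  obtain ⟨h0, s, hs, hsupp, hsum⟩ := hx
  have hsub : {v | x v ≠ 0} ⊆ (s : Set V) := fun v hv => by
    by_contra hvs
    exact hv (hsupp v hvs)
  have hfin : {v | x v ≠ 0}.Finite := s.finite_toSet.subset hsub
  have hmem : ∀ v, v ∈ suppF x ↔ x v ≠ 0 := by
    intro v
    unfold suppF
    rw [dif_pos hfin, Set.Finite.mem_toFinset]
    rfl
  have hss : suppF x ⊆ s := fun v hv => hsub ((hmem v).1 hv)
  have hsum' : ∑ v ∈ suppF x, x v = 1 := by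
    rw [← hsum]
    refine Finset.sum_subset hss fun v _ hv => ?_
    by_contra h
    exact hv ((hmem v).2 h)
  refine ⟨H.down s hs _ hss ?_, hmem, hsum'⟩
  by_contra hne
  rw [Finset.not_nonempty_iff_eq_empty] at hne
  rw [hne, Finset.sum_empty] at hsum'
  exact zero_ne_one hsum'

theorem smul_mem (H : IsProjTri n K R ρ p) (g : G) {x : V → ℝ} (hx : x ∈ realisation K) :
    (fun v => x (g⁻¹ • v)) ∈ realisation K := by
  obtain ⟨h0, s, hs, hsupp, hsum⟩ := hx
  refine ⟨fun v => h0 _, tr g s, H.inv g s hs, fun v hv => hsupp _ (fun h => hv (mem_tr.2 h)), ?_⟩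
  rw [sum_tr]
  simp only [inv_smul_smul]
  exact hsum

/-- the action on the geometric realisation -/
@[reducible] def act (H : IsProjTri n K R ρ p) : MulAction G (realisation K) where
  smul g x := ⟨fun v => (x : V → ℝ) (g⁻¹ • v), H.smul_mem g x.2⟩
  one_smul x := by
    apply Subtype.ext
    funext v
    change (x : V → ℝ) ((1 : G)⁻¹ • v) = (x : V → ℝ) v
    rw [inv_one, one_smul]
  mul_smul g g' x := by
    apply Subtype.ext
    funext v
    change (x : V → ℝ) ((g * g')⁻¹ • v) = (x : V → ℝ) (g'⁻¹ • g⁻¹ • v)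
    rw [mul_inv_rev, mul_smul]

theorem supp_smul (H : IsProjTri n K R ρ p) (g : G) {x : V → ℝ} (hx : x ∈ realisation K) :
    suppF (fun v => x (g⁻¹ • v)) = tr g (suppF x) := by
  ext v
  rw [(H.supp_spec (H.smul_mem g hx)).2.1, mem_tr, (H.supp_spec hx).2.1]

/-- proper discontinuity -/
theorem disjoint_nhds (H : IsProjTri n K R ρ p) {u : V → ℝ} (hu : u ∈ realisation K) :
    ∃ W : Set (V → ℝ), IsOpen W ∧ u ∈ W ∧ ∀ g : G, g ≠ 1 → ∀ x ∈ realisation K, x ∈ W →
      (fun v => x (g⁻¹ • v)) ∉ W := by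
  classical
  obtain ⟨hsK, hsupp, -⟩ := H.supp_spec hu
  set s := suppF u with hs
  obtain ⟨v0, hv0⟩ := H.nonempty s hsK
  -- the finite set of group elements
  set D : Set G := {g | g ≠ 1 ∧ ∃ t ∈ K, s ⊆ t ∧ tr g s ⊆ t} with hD
  have hDfin : D.Finite := by
    have hfin : (((H.star_finite v0).toFinset.biUnion fun t =>
        t.image fun u => H.gam u * (H.gam v0)⁻¹ : Finset G) : Set G).Finite :=
      Finset.finite_toSet _
    refine hfin.subset ?_
    rintro g ⟨-, t, ht, hst, hgt⟩
    rw [Finset.mem_coe, Finset.mem_biUnion]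
    refine ⟨t, ?_, ?_⟩
    · rw [Set.Finite.mem_toFinset]
      exact ⟨ht, hst hv0⟩
    · rw [Finset.mem_image]
      refine ⟨g • v0, hgt (smul_mem_tr.2 hv0), ?_⟩
      rw [H.gam_smul, mul_inv_cancel_right]
  -- the separating coordinates
  have hsep : ∀ g : G, g ∈ D → ∃ v, u (g⁻¹ • v) ≠ u v := by
    rintro g ⟨hg, -⟩
    by_contra hall
    push Not at hall
    apply hg
    apply H.free hsK
    rw [hs, ← H.supp_smul g hu]
    congr 1
    funext v
    exact hall v
  have : Nonempty V := ⟨v0⟩
  choose! w hw using hsep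
  set δ : G → ℝ := fun g => |u (g⁻¹ • w g) - u (w g)| / 2 with hδ
  have hδpos : ∀ g ∈ D, 0 < δ g := fun g hg => half_pos (abs_pos.2 (sub_ne_zero.2 (hw g hg)))
  refine ⟨(⋂ v ∈ s, {x : V → ℝ | 0 < x v}) ∩ ⋂ g ∈ D, ({x : V → ℝ | |x (w g) - u (w g)| < δ g} ∩
    {x : V → ℝ | |x (g⁻¹ • w g) - u (g⁻¹ • w g)| < δ g}), ?_, ?_, ?_⟩
  · refine IsOpen.inter ?_ ?_
    · refine isOpen_biInter_finset fun v _ => ?_
      exact isOpen_lt continuous_const (continuous_apply v)
    · refine Set.Finite.isOpen_biInter hDfin fun g _ => IsOpen.inter ?_ ?_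
      · exact isOpen_lt (((continuous_apply _).sub continuous_const).abs) continuous_const
      · exact isOpen_lt (((continuous_apply _).sub continuous_const).abs) continuous_const
  · refine ⟨?_, ?_⟩
    · rw [Set.mem_iInter₂]
      intro v hv
      exact lt_of_le_of_ne (hu.1 v) (Ne.symm ((hsupp v).1 hv))
    · rw [Set.mem_iInter₂]
      intro g hg
      refine ⟨?_, ?_⟩
      · show |u (w g) - u (w g)| < δ g
        rw [sub_self, abs_zero]; exact hδpos g hg
      · show |u (g⁻¹ • w g) - u (g⁻¹ • w g)| < δ g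
        rw [sub_self, abs_zero]; exact hδpos g hg
  · rintro g hg x hx ⟨hx1, hx2⟩ ⟨hy1, hy2⟩
    rw [Set.mem_iInter₂] at hx1 hx2 hy1 hy2
    by_cases hgD : g ∈ D
    · have h1 : |x (g⁻¹ • w g) - u (w g)| < δ g := (hy2 g hgD).1
      have h2 : |x (g⁻¹ • w g) - u (g⁻¹ • w g)| < δ g := (hx2 g hgD).2
      have h3 : |u (g⁻¹ • w g) - u (w g)| ≤
          |x (g⁻¹ • w g) - u (g⁻¹ • w g)| + |x (g⁻¹ • w g) - u (w g)| := by
        have : u (g⁻¹ • w g) - u (w g) =
            -(x (g⁻¹ • w g) - u (g⁻¹ • w g)) + (x (g⁻¹ • w g) - u (w g)) := by ring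
        rw [this]
        refine (abs_add_le _ _).trans ?_
        rw [abs_neg]
      have h4 : δ g = |u (g⁻¹ • w g) - u (w g)| / 2 := rfl
      linarith
    · apply hgD
      obtain ⟨htK, htsupp, -⟩ := H.supp_spec (H.smul_mem g hx)
      refine ⟨hg, _, htK, ?_, ?_⟩
      · intro v hv
        rw [htsupp]
        exact ne_of_gt (hy1 v hv)
      · rw [H.supp_smul g hx, tr_subset]
        intro v hv
        rw [(H.supp_spec hx).2.1]
        exact ne_of_gt (hx1 v hv)

theorem isCovering (H : IsProjTri n K R ρ p) : IsCoveringMap (proj G K) := by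
  let _ := H.act
  have hsm : ∀ (g : G) (u : realisation K) (v : V),
      ((g • u : realisation K) : V → ℝ) v = (u : V → ℝ) (g⁻¹ • v) := fun g u v => rfl
  have hq : IsQuotientCoveringMap (proj G K) G :=
    { toIsQuotientMap := isQuotientMap_quotient_mk'
      continuous_const_smul := by
        intro g
        refine Continuous.subtype_mk (continuous_pi fun v => ?_) _
        exact (continuous_apply (g⁻¹ • v)).comp continuous_subtype_val
      apply_eq_iff_mem_orbit := by
        intro u v
        have e : proj G K u = proj G K v ↔ ∃ g : G, ∀ y, (v : V → ℝ) (g • y) = (u : V → ℝ) y :=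
          Quotient.eq
        rw [e, MulAction.mem_orbit_iff]
        constructor
        · rintro ⟨g, h⟩
          refine ⟨g⁻¹, ?_⟩
          apply Subtype.ext
          funext y
          rw [hsm, inv_inv]
          exact h y
        · rintro ⟨g, h⟩
          refine ⟨g⁻¹, fun y => ?_⟩
          rw [← hsm, h]
      disjoint := by
        intro u
        obtain ⟨W, hWo, huW, hdis⟩ := H.disjoint_nhds u.2
        refine ⟨Subtype.val ⁻¹' W, (hWo.preimage continuous_subtype_val).mem_nhds huW, ?_⟩
        rintro g ⟨_, ⟨w, hw, rfl⟩, hgw⟩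
        by_contra hg
        exact hdis g hg w w.2 hw hgw }
  exact hq.isCoveringMap

/-- lifts of singular simplices -/
theorem lifts (H : IsProjTri n K R ρ p) (k : ℕ) :
    (∀ σ : SSimplex (Mfd G K) k, ∃ τ : SSimplex (realisation K) k, (proj G K).comp τ = σ) ∧
    (∀ τ τ' : SSimplex (realisation K) k, (proj G K).comp τ = (proj G K).comp τ' →
      ∃ g : G, ∀ t v, (τ' t : V → ℝ) (g • v) = (τ t : V → ℝ) v) := by
  have hcov := H.isCovering
  have := simplyConn k
  have := locPath k
  let b0 : stdSimplex ℝ (Fin (k + 1)) := stdSimplex.vertex 0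
  constructor
  · intro σ
    obtain ⟨e, he⟩ : ∃ e : realisation K, proj G K e = σ b0 := Quotient.exists_rep _
    obtain ⟨τ, ⟨_, hτ⟩, _⟩ := hcov.existsUnique_continuousMap_lifts σ b0 e he
    exact ⟨τ, ContinuousMap.ext fun t => congrFun hτ t⟩
  · intro τ τ' h
    have h0 : proj G K (τ b0) = proj G K (τ' b0) := DFunLike.congr_fun h b0
    have h0' : ∃ g : G, ∀ y, (τ' b0 : V → ℝ) (g • y) = (τ b0 : V → ℝ) y := Quotient.exact h0
    obtain ⟨g, hgy⟩ := h0'
    refine ⟨g, ?_⟩
    let r : realisation K → realisation K := fun u =>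
      ⟨fun y => (u : V → ℝ) (g⁻¹ • y), H.smul_mem g u.2⟩
    have hr : Continuous r := by
      refine Continuous.subtype_mk (continuous_pi fun y => ?_) _
      exact (continuous_apply (g⁻¹ • y)).comp continuous_subtype_val
    have hproj : ∀ u, proj G K (r u) = proj G K u := fun u =>
      Quotient.sound ⟨g⁻¹, fun y => rfl⟩
    have heq : (fun t => τ' t) = fun t => r (τ t) := by
      refine hcov.eq_of_comp_eq τ'.continuous (hr.comp τ.continuous) (funext fun t => ?_) b0 ?_
      · change proj G K (τ' t) = proj G K (r (τ t))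
        rw [hproj]
        exact (DFunLike.congr_fun h t).symm
      · apply Subtype.ext
        funext y
        change (τ' b0 : V → ℝ) y = (τ b0 : V → ℝ) (g⁻¹ • y)
        rw [← hgy, smul_inv_smul]
    intro t y
    have h3 : τ' t = r (τ t) := congrFun heq t
    rw [h3]
    change (τ t : V → ℝ) (g⁻¹ • g • y) = (τ t : V → ℝ) y
    rw [inv_smul_smul]

/-- an equivariant choice of vertices -/
theorem exists_vertex (H : IsProjTri n K R ρ p) :
    ∃ N : realisation K → V,
      (∀ (g : G) (u u' : realisation K), (∀ y, (u' : V → ℝ) (g • y) = (u : V → ℝ) y) →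
        N u' = g • N u) ∧
      ∀ (u : realisation K) (v : V), (∀ y, (u : V → ℝ) y ≠ 0 ↔ y = v) → N u = v := by
  classical
  have hne : ∀ u : realisation K, (H.rt (suppF (u : V → ℝ))).Nonempty := fun u =>
    H.nonempty _ (H.sub _ (H.rt_mem (H.supp_spec u.2).1))
  by_cases hV : Nonempty V
  · let pick : Finset V → V := fun s => if h : s.Nonempty then h.choose else hV.some
    have hpick : ∀ s : Finset V, s.Nonempty → pick s ∈ s := by
      intro s hs
      show (if h : s.Nonempty then h.choose else hV.some) ∈ s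
      rw [dif_pos hs]
      exact hs.choose_spec
    refine ⟨fun u => H.gt (suppF (u : V → ℝ)) • pick (H.rt (suppF (u : V → ℝ))), ?_, ?_⟩
    · intro g u u' h
      have h1 : suppF (u' : V → ℝ) = tr g (suppF (u : V → ℝ)) := by
        rw [← H.supp_smul g u.2]
        congr 1
        funext v
        rw [← h, smul_inv_smul]
      obtain ⟨h2, h3⟩ := H.gt_tr (H.supp_spec u.2).1 g
      show H.gt (suppF (u' : V → ℝ)) • pick (H.rt (suppF (u' : V → ℝ))) = _
      rw [h1, h2, h3, mul_smul]
    · intro u v h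
      obtain ⟨hK, hmem, -⟩ := H.supp_spec u.2
      have h1 : suppF (u : V → ℝ) = {v} := by
        ext y
        rw [hmem, Finset.mem_singleton]
        exact h y
      have h2 := H.tr_gt_rt hK
      have h3 := hpick _ (hne u)
      have h4 : H.gt (suppF (u : V → ℝ)) • pick (H.rt (suppF (u : V → ℝ))) ∈ suppF (u : V → ℝ) := by
        have h5 : H.gt (suppF (u : V → ℝ)) • pick (H.rt (suppF (u : V → ℝ))) ∈
            tr (H.gt (suppF (u : V → ℝ))) (H.rt (suppF (u : V → ℝ))) := smul_mem_tr.2 h3
        exact (Finset.ext_iff.1 h2 _).1 h5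
      rw [h1, Finset.mem_singleton] at h4
      show H.gt (suppF (u : V → ℝ)) • pick (H.rt (suppF (u : V → ℝ))) = v
      rw [h1]
      exact h4
  · have hempty : IsEmpty (realisation K) := by
      refine ⟨fun u => ?_⟩
      obtain ⟨x, hx⟩ := hne u
      exact hV ⟨x⟩
    refine ⟨fun u => hempty.elim u, ?_, ?_⟩
    · intro g u
      exact hempty.elim u
    · intro u
      exact hempty.elim u

/-- from invariant cocycles on tuples of vertices to singular cochains -/
theorem exists_cochain (H : IsProjTri n K R ρ p) (k : ℕ) (c : (Fin (k + 1) → V) → ℝ) (B : ℝ)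
    (hB : ∀ v, |c v| ≤ B) (hinv : ∀ (g : G) v, c (fun i => g • v i) = c v)
    (hcoc : ∀ v : Fin (k + 2) → V, ∑ i : Fin (k + 2), (-1 : ℝ) ^ (i : ℕ) *
      c (fun j => v (i.succAbove j)) = 0) :
    ∃ C : SSimplex (Mfd G K) k → ℝ, (∀ σ, |C σ| ≤ B) ∧
      (∀ σ : SSimplex (Mfd G K) (k + 1),
        ∑ i : Fin (k + 2), (-1 : ℝ) ^ (i : ℕ) * C (face σ i) = 0) ∧
      ∀ (τ : SSimplex (realisation K) k) (v : Fin (k + 1) → V),
        (∀ j y, ((τ (stdSimplex.vertex j) : realisation K) : V → ℝ) y ≠ 0 ↔ y = v j) →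
        C ((proj G K).comp τ) = c v := by
  obtain ⟨N, hN, hNi⟩ := H.exists_vertex
  choose L hLift using (H.lifts k).1
  have hval : ∀ (τ : SSimplex (realisation K) k),
      c (fun j => N (L ((proj G K).comp τ) (stdSimplex.vertex j))) =
        c (fun j => N (τ (stdSimplex.vertex j))) := by
    intro τ
    obtain ⟨g, h⟩ := (H.lifts k).2 τ (L ((proj G K).comp τ)) (hLift ((proj G K).comp τ)).symm
    rw [← hinv g (fun j => N (τ (stdSimplex.vertex j)))]
    congr 1
    funext j
    exact hN g _ _ (h (stdSimplex.vertex j))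
  refine ⟨fun σ => c (fun j => N (L σ (stdSimplex.vertex j))), fun σ => hB _, ?_, ?_⟩
  · intro σ
    obtain ⟨τ, hτ⟩ := (H.lifts (k + 1)).1 σ
    have hf : ∀ i : Fin (k + 2), c (fun j => N (L (face σ i) (stdSimplex.vertex j))) =
        c (fun j => (fun j => N (τ (stdSimplex.vertex j))) (i.succAbove j)) := by
      intro i
      have e1 : face σ i = (proj G K).comp (face τ i) := by
        rw [← hτ]; rfl
      rw [e1, hval (face τ i)]
      congr 1
      funext j
      have e2 : stdSimplex.map i.succAbove (stdSimplex.vertex (S := ℝ) j) =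
          stdSimplex.vertex (i.succAbove j) := stdSimplex.map_vertex _ _
      have e3 : face τ i (stdSimplex.vertex j) = τ (stdSimplex.vertex (i.succAbove j)) := by
        rw [← e2]; rfl
      rw [e3]
    simp only [hf]
    exact hcoc (fun j => N (τ (stdSimplex.vertex j)))
  · intro τ v h
    change c (fun j => N (L ((proj G K).comp τ) (stdSimplex.vertex j))) = c v
    rw [hval τ]
    congr 1
    funext j
    exact hNi _ _ (h j)

end IsProjTri

end MP8a95ee.CP
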